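import Mathlib

/-!
Definitions for problem MP_af08fa_gt: the piecewise isometries `phi`, `psi` of the
hyperbolic barrel `Q α`, at the lower edge `β = betaLow α` of the parameter region.
-/

set_option autoImplicit false

open scoped ComplexConjugate

namespace Pool.Agent.Work.MP_af08fa_gt

/-- Hyperbolic distance of the Poincare disk (curvature -1) between two points of the disk. -/
noncomputable def hypDist (z w : ℂ) : ℝ :=
  Real.arcosh (1 + 2 * ‖z - w‖ ^ 2 / ((1 - ‖z‖ ^ 2) * (1 - ‖w‖ ^ 2)))

/-- The real axis of the disk. -/
def realAxis : Set ℂ := {z | ‖z‖ < 1 ∧ z.im = 0}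

/-- The imaginary axis of the disk. -/
def imagAxis : Set ℂ := {z | ‖z‖ < 1 ∧ z.re = 0}

/-- Hyperbolic distance from a point to a set of points of the disk. -/
noncomputable def distTo (S : Set ℂ) (z : ℂ) : ℝ := sInf (hypDist z '' S)

/-- Signed hyperbolic distance to the imaginary axis, negative when the real part is negative. -/
noncomputable def delta (z : ℂ) : ℝ :=
  if z.re < 0 then - distTo imagAxis z else distTo imagAxis z

/-- Signed hyperbolic distance to the real axis, negative when the imaginary part is negative. -/
noncomputable def eps (z : ℂ) : ℝ :=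
  if z.im < 0 then - distTo realAxis z else distTo realAxis z

/-- The disk automorphism `z ↦ (z + a) / (conj a * z + 1)`. -/
noncomputable def tau (a z : ℂ) : ℂ := (z + a) / (conj a * z + 1)

/-- The half-width `b_α` of the barrel. -/
noncomputable def bwid (α : ℝ) : ℝ := Real.arcosh (1 / (1 - 2 * α ^ 2)) / 2

/-- The closed barrel: points at distance at most `b_α` from both axes. -/
noncomputable def closedBarrel (α : ℝ) : Set ℂ :=
  {z | ‖z‖ < 1 ∧ distTo realAxis z ≤ bwid α ∧ distTo imagAxis z ≤ bwid α}

/-- The barrel `Q_α`: the closed barrel without its right boundary arc (`delta z = b_α`) and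
without its top boundary arc (`eps z = b_α`). -/
noncomputable def Q (α : ℝ) : Set ℂ :=
  {z | z ∈ closedBarrel α ∧ delta z ≠ bwid α ∧ eps z ≠ bwid α}

/-- `H(c,s)`, the image under `tau c` of the points of the disk with `delta < s`. -/
noncomputable def H (c s : ℝ) : Set ℂ := tau c '' {z | ‖z‖ < 1 ∧ delta z < s}

/-- The quadrangle. -/
noncomputable def quadrangle (α β : ℝ) : Set ℂ := Q α ∩ H (-β) (bwid α)

/-- The lens. -/
noncomputable def lens (α : ℝ) : Set ℂ := Q α \ H α (-bwid α)

open Classical in
/-- The piecewise isometry `φ`: `tau β` on the quadrangle, `tau (-α)` on the lens and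
`tau (-α) ∘ tau β` on the rest (the hourglass). -/
noncomputable def phi (α β : ℝ) (z : ℂ) : ℂ :=
  if z ∈ quadrangle α β then tau β z
  else if z ∈ lens α then tau (-α) z
  else tau (-α) (tau β z)

/-- Reflection in the line `re = im`. -/
noncomputable def sig (z : ℂ) : ℂ := Complex.I * conj z

/-- `ψ = σ φ σ`. -/
noncomputable def psi (α β : ℝ) (z : ℂ) : ℂ := sig (phi α β (sig z))

/-- The lower edge `β_α` of the legal region. -/
noncomputable def betaLow (α : ℝ) : ℝ :=
  α * (1 - √(1 - α ^ 2)) / (√(1 - α ^ 2) - α ^ 2)

/-- The three properties asked for, for a pair of parameters: `φ` and `ψ` are bijections of `Q_α`;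
as elements of the group of permutations of `Q_α` they are independent, i.e. the homomorphism from
the free group on two letters sending the letters to `φ` and `ψ` is injective; and every
non-identity element of the group they generate has only finitely many fixed points in `Q_α`. -/
def Good (α β : ℝ) : Prop :=
  ∃ (hφ : Set.BijOn (phi α β) (Q α) (Q α)) (hψ : Set.BijOn (psi α β) (Q α) (Q α)),
    Function.Injective
      (FreeGroup.lift (fun i : Bool => if i then hψ.equiv (psi α β) else hφ.equiv (phi α β)) :
        FreeGroup Bool →* Equiv.Perm (Q α)) ∧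
    ∀ g ∈ Subgroup.closure ({hφ.equiv (phi α β), hψ.equiv (psi α β)} : Set (Equiv.Perm (Q α))),
      g ≠ 1 → {z : Q α | g z = z}.Finite

end Pool.Agent.Work.MP_af08fa_gt
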