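import Mathlib
import Pool.Agent.Work.MP_af08fa_gt.Defs

/-!
Hyperboloid coordinates and the signed distances.
-/

set_option autoImplicit false

open scoped ComplexConjugate

namespace Pool.Agent.Work.MP_af08fa_gt

/-- squared norm -/
noncomputable def nsq (z : ℂ) : ℝ := z.re ^ 2 + z.im ^ 2

lemma norm_sq_eq (z : ℂ) : ‖z‖ ^ 2 = nsq z := by
  rw [← Complex.normSq_eq_norm_sq, Complex.normSq_apply, nsq]; ring

lemma nsq_lt_one {z : ℂ} (hz : ‖z‖ < 1) : nsq z < 1 := by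
  rw [← norm_sq_eq]
  have := norm_nonneg z
  nlinarith

lemma norm_lt_one_of_nsq {z : ℂ} (hz : nsq z < 1) : ‖z‖ < 1 := by
  rw [← norm_sq_eq] at hz
  have := norm_nonneg z
  nlinarith

/-- hyperboloid coordinates -/
noncomputable def X0 (z : ℂ) : ℝ := (1 + nsq z) / (1 - nsq z)
/-- hyperboloid coordinates -/
noncomputable def X1 (z : ℂ) : ℝ := 2 * z.re / (1 - nsq z)
/-- hyperboloid coordinates -/
noncomputable def X2 (z : ℂ) : ℝ := 2 * z.im / (1 - nsq z)

lemma X0_pos {z : ℂ} (hz : ‖z‖ < 1) : 0 < X0 z := by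
  have h := nsq_lt_one hz
  have h2 : 0 ≤ nsq z := by unfold nsq; positivity
  unfold X0
  apply div_pos <;> linarith

lemma X_rel {z : ℂ} (hz : ‖z‖ < 1) : X0 z ^ 2 = 1 + X1 z ^ 2 + X2 z ^ 2 := by
  have h := nsq_lt_one hz
  have h3 : (1 - nsq z) ≠ 0 := by linarith
  have e : nsq z = z.re ^ 2 + z.im ^ 2 := rfl
  unfold X0 X1 X2
  field_simp
  rw [e]
  ring

lemma arcosh_sqrt (s : ℝ) : Real.arcosh √(1 + s ^ 2) = |Real.arsinh s| := by
  rw [← Real.cosh_arsinh, ← Real.cosh_abs, Real.arcosh_cosh (abs_nonneg _)]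

lemma hyp_arg {z : ℂ} (hz : ‖z‖ < 1) (w : ℂ) (hw : ‖w‖ < 1) (hw0 : w.re = 0) :
    1 + 2 * ‖z - w‖ ^ 2 / ((1 - ‖z‖ ^ 2) * (1 - ‖w‖ ^ 2)) =
      X0 z * ((1 + w.im ^ 2) / (1 - w.im ^ 2)) - X2 z * (2 * w.im / (1 - w.im ^ 2)) := by
  have h := nsq_lt_one hz
  have h' := nsq_lt_one hw
  rw [norm_sq_eq, norm_sq_eq, norm_sq_eq]
  have e : nsq z = z.re ^ 2 + z.im ^ 2 := rfl
  have e1 : nsq w = w.im ^ 2 := by unfold nsq; rw [hw0]; ring
  have e2 : nsq (z - w) = z.re ^ 2 + (z.im - w.im) ^ 2 := by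
    unfold nsq; rw [Complex.sub_re, Complex.sub_im, hw0]; ring
  rw [e1] at h'
  have h3 : (1 - nsq z) ≠ 0 := by linarith
  have h4 : (1 - w.im ^ 2) ≠ 0 := by linarith
  rw [e1, e2]
  unfold X0 X2
  field_simp
  rw [e]
  ring

lemma distTo_imagAxis {z : ℂ} (hz : ‖z‖ < 1) : distTo imagAxis z = |Real.arsinh (X1 z)| := by
  have hX0 := X0_pos hz
  have hrel := X_rel hz
  have hR : 0 < √(1 + X1 z ^ 2) := Real.sqrt_pos.2 (by positivity)
  have hR2 : √(1 + X1 z ^ 2) ^ 2 = 1 + X1 z ^ 2 := Real.sq_sqrt (by positivity)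
  have hleast : IsLeast (hypDist z '' imagAxis) |Real.arsinh (X1 z)| := by
    constructor
    · set R := √(1 + X1 z ^ 2) with hRdef
      set y : ℝ := X2 z / (R + X0 z) with hy
      have hRX : 0 < R + X0 z := by positivity
      have hy1 : y * (R + X0 z) = X2 z := by rw [hy]; field_simp
      have hy2 : (1 - y ^ 2) * (R + X0 z) = 2 * R := by
        have : (1 - y ^ 2) * (R + X0 z) * (R + X0 z) = 2 * R * (R + X0 z) := by
          have : (1 - y ^ 2) * (R + X0 z) * (R + X0 z)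
            = (R + X0 z) ^ 2 - (y * (R + X0 z)) ^ 2 := by ring
          rw [this, hy1]
          nlinarith
        exact mul_right_cancel₀ hRX.ne' this
      have hy3 : (1 + y ^ 2) * (R + X0 z) = 2 * X0 z := by
        have : (1 + y ^ 2) * (R + X0 z) * (R + X0 z) = 2 * X0 z * (R + X0 z) := by
          have : (1 + y ^ 2) * (R + X0 z) * (R + X0 z)
            = (R + X0 z) ^ 2 + (y * (R + X0 z)) ^ 2 := by ring
          rw [this, hy1]
          nlinarith
        exact mul_right_cancel₀ hRX.ne' this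
      have hy4 : 0 < 1 - y ^ 2 := by
        by_contra hcon
        push Not at hcon
        have : (1 - y ^ 2) * (R + X0 z) ≤ 0 := mul_nonpos_of_nonpos_of_nonneg hcon hRX.le
        linarith
      have hw : ‖(⟨0, y⟩ : ℂ)‖ < 1 := by
        apply norm_lt_one_of_nsq
        unfold nsq
        simp only
        linarith
      refine ⟨⟨0, y⟩, ⟨hw, rfl⟩, ?_⟩
      unfold hypDist
      rw [hyp_arg hz _ hw rfl, ← arcosh_sqrt]
      congr 1
      rw [← hRdef]
      simp only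
      have e1 : (1 + y ^ 2) / (1 - y ^ 2) = X0 z / R := by
        rw [div_eq_div_iff hy4.ne' hR.ne']
        have := hy2
        have h5 : (1 + y ^ 2) * R * (R + X0 z) = X0 z * (1 - y ^ 2) * (R + X0 z) := by
          calc (1 + y ^ 2) * R * (R + X0 z) = ((1 + y ^ 2) * (R + X0 z)) * R := by ring
            _ = 2 * X0 z * R := by rw [hy3]
            _ = X0 z * (2 * R) := by ring
            _ = X0 z * ((1 - y ^ 2) * (R + X0 z)) := by rw [hy2]
            _ = X0 z * (1 - y ^ 2) * (R + X0 z) := by ring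
        exact mul_right_cancel₀ hRX.ne' h5
      have e2 : 2 * y / (1 - y ^ 2) = X2 z / R := by
        rw [div_eq_div_iff hy4.ne' hR.ne']
        have h5 : 2 * y * R * (R + X0 z) = X2 z * (1 - y ^ 2) * (R + X0 z) := by
          calc 2 * y * R * (R + X0 z) = (y * (R + X0 z)) * (2 * R) := by ring
            _ = X2 z * ((1 - y ^ 2) * (R + X0 z)) := by rw [hy1, hy2]
            _ = X2 z * (1 - y ^ 2) * (R + X0 z) := by ring
        exact mul_right_cancel₀ hRX.ne' h5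
      rw [e1, e2]
      field_simp
      nlinarith
    · rintro _ ⟨w, ⟨hw, hw0⟩, rfl⟩
      unfold hypDist
      rw [hyp_arg hz w hw hw0, ← arcosh_sqrt]
      have h' := nsq_lt_one hw
      have e1 : nsq w = w.im ^ 2 := by unfold nsq; rw [hw0]; ring
      rw [e1] at h'
      set Y0 := (1 + w.im ^ 2) / (1 - w.im ^ 2) with hY0
      set Y2 := 2 * w.im / (1 - w.im ^ 2) with hY2
      have h4 : (1 - w.im ^ 2) ≠ 0 := by linarith
      have hY : Y0 ^ 2 = 1 + Y2 ^ 2 := by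
        rw [hY0, hY2]; field_simp; ring
      have hY0p : 0 < Y0 := by rw [hY0]; apply div_pos <;> nlinarith
      have hpos : 0 ≤ X0 z * Y0 - X2 z * Y2 := by
        have h5 : |X2 z| ≤ X0 z := abs_le_of_sq_le_sq (by nlinarith) hX0.le
        have h6 : |Y2| ≤ Y0 := abs_le_of_sq_le_sq (by nlinarith) hY0p.le
        have h7 : |X2 z * Y2| ≤ X0 z * Y0 := by
          rw [abs_mul]
          exact mul_le_mul h5 h6 (abs_nonneg _) hX0.le
        have := le_abs_self (X2 z * Y2)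
        linarith
      have hle : √(1 + X1 z ^ 2) ≤ X0 z * Y0 - X2 z * Y2 := by
        rw [Real.sqrt_le_left hpos]
        nlinarith [sq_nonneg (X0 z * Y2 - X2 z * Y0)]
      have h1 : 0 < √(1 + X1 z ^ 2) := hR
      exact (Real.arcosh_le_arcosh h1 (lt_of_lt_of_le h1 hle)).2 hle
  exact hleast.csInf_eq

lemma nsq_sig (z : ℂ) : nsq (sig z) = nsq z := by
  simp [nsq, sig]; ring

lemma sig_re (z : ℂ) : (sig z).re = z.im := by simp [sig]
lemma sig_im (z : ℂ) : (sig z).im = z.re := by simp [sig]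

lemma norm_sig (z : ℂ) : ‖sig z‖ = ‖z‖ := by simp [sig]

lemma sig_sig (z : ℂ) : sig (sig z) = z := by
  apply Complex.ext
  · rw [sig_re, sig_im]
  · rw [sig_im, sig_re]

lemma sig_sub (z w : ℂ) : sig z - sig w = sig (z - w) := by
  apply Complex.ext <;> simp [sig_re, sig_im]

lemma hypDist_sig (z w : ℂ) : hypDist (sig z) (sig w) = hypDist z w := by
  unfold hypDist
  rw [sig_sub, norm_sig, norm_sig, norm_sig]

lemma sig_image_realAxis : sig '' realAxis = imagAxis := by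
  ext w
  constructor
  · rintro ⟨z, ⟨hz, hz0⟩, rfl⟩
    exact ⟨by rw [norm_sig]; exact hz, by rw [sig_re]; exact hz0⟩
  · rintro ⟨hw, hw0⟩
    exact ⟨sig w, ⟨by rw [norm_sig]; exact hw, by rw [sig_im]; exact hw0⟩, sig_sig w⟩

lemma distTo_realAxis_eq (z : ℂ) : distTo realAxis z = distTo imagAxis (sig z) := by
  unfold distTo
  rw [← sig_image_realAxis, Set.image_image]
  congr 1
  apply Set.image_congr
  intro w _
  exact (hypDist_sig z w).symm

lemma X1_sig (z : ℂ) : X1 (sig z) = X2 z := by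
  unfold X1 X2; rw [sig_re, nsq_sig]
lemma X2_sig (z : ℂ) : X2 (sig z) = X1 z := by
  unfold X1 X2; rw [sig_im, nsq_sig]

lemma distTo_realAxis {z : ℂ} (hz : ‖z‖ < 1) : distTo realAxis z = |Real.arsinh (X2 z)| := by
  rw [distTo_realAxis_eq, distTo_imagAxis (by rw [norm_sig]; exact hz), X1_sig]

lemma delta_eq {z : ℂ} (hz : ‖z‖ < 1) : delta z = Real.arsinh (X1 z) := by
  have h := nsq_lt_one hz
  unfold delta
  rw [distTo_imagAxis hz]
  split_ifs with h0
  · have : Real.arsinh (X1 z) ≤ 0 := by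
      rw [Real.arsinh_nonpos_iff]
      unfold X1
      apply div_nonpos_of_nonpos_of_nonneg <;> linarith
    rw [abs_of_nonpos this]; ring
  · have : 0 ≤ Real.arsinh (X1 z) := by
      rw [Real.arsinh_nonneg_iff]
      unfold X1
      apply div_nonneg <;> linarith
    rw [abs_of_nonneg this]

lemma eps_eq_delta_sig (z : ℂ) : eps z = delta (sig z) := by
  unfold eps delta
  rw [sig_re, distTo_realAxis_eq]

lemma eps_eq {z : ℂ} (hz : ‖z‖ < 1) : eps z = Real.arsinh (X2 z) := by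
  rw [eps_eq_delta_sig, delta_eq (by rw [norm_sig]; exact hz), X1_sig]

/-- the barrel in coordinates -/
lemma mem_Q_iff {α : ℝ} {z : ℂ} : z ∈ Q α ↔
    ‖z‖ < 1 ∧ -bwid α ≤ Real.arsinh (X1 z) ∧ Real.arsinh (X1 z) < bwid α ∧
      -bwid α ≤ Real.arsinh (X2 z) ∧ Real.arsinh (X2 z) < bwid α := by
  constructor
  · rintro ⟨⟨hz, h1, h2⟩, h3, h4⟩
    rw [distTo_realAxis hz] at h1
    rw [distTo_imagAxis hz] at h2
    rw [delta_eq hz] at h3
    rw [eps_eq hz] at h4
    rw [abs_le] at h1 h2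
    exact ⟨hz, h2.1, lt_of_le_of_ne h2.2 h3, h1.1, lt_of_le_of_ne h1.2 h4⟩
  · rintro ⟨hz, h1, h2, h3, h4⟩
    refine ⟨⟨hz, ?_, ?_⟩, ?_, ?_⟩
    · rw [distTo_realAxis hz, abs_le]; exact ⟨h3, h4.le⟩
    · rw [distTo_imagAxis hz, abs_le]; exact ⟨h1, h2.le⟩
    · rw [delta_eq hz]; exact h2.ne
    · rw [eps_eq hz]; exact h4.ne

lemma sig_mem_Q {α : ℝ} {z : ℂ} (h : z ∈ Q α) : sig z ∈ Q α := by
  rw [mem_Q_iff] at h ⊢
  rw [norm_sig, X1_sig, X2_sig]
  exact ⟨h.1, h.2.2.2.1, h.2.2.2.2, h.2.1, h.2.2.1⟩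

end Pool.Agent.Work.MP_af08fa_gt
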