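import Mathlib
import Pool.Agent.Work.MP_af08fa_gt.Coord

/-!
Action of the translations on the coordinates; `phi` is a bijection of the barrel.
-/

set_option autoImplicit false

open scoped ComplexConjugate

namespace Pool.Agent.Work.MP_af08fa_gt

lemma tau_real_eq (a : ℝ) (z : ℂ) : tau a z = (z + a) / (a * z + 1) := by
  simp [tau]

lemma den_pos {a : ℝ} (ha : |a| < 1) {z : ℂ} (hz : ‖z‖ < 1) :
    0 < (a * z.re + 1) ^ 2 + (a * z.im) ^ 2 := by
  have h1 : a ^ 2 < 1 := by rw [← sq_abs]; nlinarith [abs_nonneg a]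
  have h2 := nsq_lt_one hz
  have e : nsq z = z.re ^ 2 + z.im ^ 2 := rfl
  rw [e] at h2
  by_contra hcon
  push Not at hcon
  have h3 : (a * z.re + 1) ^ 2 ≤ 0 := by nlinarith [sq_nonneg (a * z.im)]
  have h4 : a * z.re + 1 = 0 := by
    have := sq_nonneg (a * z.re + 1)
    exact pow_eq_zero_iff (two_ne_zero) |>.1 (le_antisymm h3 this)
  have h5 : a * z.re = -1 := by linarith
  have h6 : (a * z.re) ^ 2 = 1 := by rw [h5]; norm_num
  have h7 : a ^ 2 * z.re ^ 2 < 1 := by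
    have : z.re ^ 2 < 1 := by nlinarith [sq_nonneg z.im]
    nlinarith [sq_nonneg a, sq_nonneg z.re]
  nlinarith

lemma den_ne {a : ℝ} (ha : |a| < 1) {z : ℂ} (hz : ‖z‖ < 1) : (a * z + 1 : ℂ) ≠ 0 := by
  intro h
  have h1 := den_pos ha hz
  have h2 := congrArg Complex.re h
  have h3 := congrArg Complex.im h
  simp at h2 h3
  have h4 : a * z.im = 0 := by rcases h3 with h | h <;> simp [h]
  rw [h2, h4] at h1
  norm_num at h1

lemma tau_re {a : ℝ} {z : ℂ} :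
    (tau a z).re = ((z.re + a) * (a * z.re + 1) + z.im * (a * z.im)) /
      ((a * z.re + 1) ^ 2 + (a * z.im) ^ 2) := by
  rw [tau_real_eq, Complex.div_re, Complex.normSq_apply]
  simp
  ring

lemma tau_im {a : ℝ} {z : ℂ} :
    (tau a z).im = (z.im * (1 - a ^ 2)) / ((a * z.re + 1) ^ 2 + (a * z.im) ^ 2) := by
  rw [tau_real_eq, Complex.div_im, Complex.normSq_apply]
  simp
  ring

lemma nsq_tau {a : ℝ} (ha : |a| < 1) {z : ℂ} (hz : ‖z‖ < 1) :
    1 - nsq (tau a z) = (1 - a ^ 2) * (1 - nsq z) / ((a * z.re + 1) ^ 2 + (a * z.im) ^ 2) := by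
  have hd := (den_pos ha hz).ne'
  have e : nsq z = z.re ^ 2 + z.im ^ 2 := rfl
  rw [e]
  unfold nsq
  rw [tau_re, tau_im]
  generalize hD : (a * z.re + 1) ^ 2 + (a * z.im) ^ 2 = D at *
  rw [div_pow, div_pow, eq_div_iff hd]
  have : (1 - (((z.re + a) * (a * z.re + 1) + z.im * (a * z.im)) ^ 2 / D ^ 2 +
    (z.im * (1 - a ^ 2)) ^ 2 / D ^ 2)) * D
    = (D ^ 2 - (((z.re + a) * (a * z.re + 1) + z.im * (a * z.im)) ^ 2 +
    (z.im * (1 - a ^ 2)) ^ 2)) / D := by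
    field_simp
  rw [this, div_eq_iff hd, ← hD]
  ring

lemma norm_tau_lt {a : ℝ} (ha : |a| < 1) {z : ℂ} (hz : ‖z‖ < 1) : ‖tau a z‖ < 1 := by
  apply norm_lt_one_of_nsq
  have h1 := nsq_tau ha hz
  have h2 := nsq_lt_one hz
  have h3 : a ^ 2 < 1 := by rw [← sq_abs]; nlinarith [abs_nonneg a]
  have h4 := den_pos ha hz
  have : 0 < (1 - a ^ 2) * (1 - nsq z) / ((a * z.re + 1) ^ 2 + (a * z.im) ^ 2) := by
    apply div_pos _ h4
    apply mul_pos <;> linarith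
  linarith

lemma X1_tau {a : ℝ} (ha : |a| < 1) {z : ℂ} (hz : ‖z‖ < 1) :
    X1 (tau a z) = 2 * a / (1 - a ^ 2) * X0 z + (1 + a ^ 2) / (1 - a ^ 2) * X1 z := by
  have hd := (den_pos ha hz).ne'
  have h2 := nsq_lt_one hz
  have h2' : 1 - nsq z ≠ 0 := by linarith
  have h3 : a ^ 2 < 1 := by rw [← sq_abs]; nlinarith [abs_nonneg a]
  have h3' : 1 - a ^ 2 ≠ 0 := by linarith
  unfold X1 X0
  rw [nsq_tau ha hz, tau_re]
  generalize (a * z.re + 1) ^ 2 + (a * z.im) ^ 2 = D at *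
  field_simp
  unfold nsq
  ring

lemma X0_tau {a : ℝ} (ha : |a| < 1) {z : ℂ} (hz : ‖z‖ < 1) :
    X0 (tau a z) = (1 + a ^ 2) / (1 - a ^ 2) * X0 z + 2 * a / (1 - a ^ 2) * X1 z := by
  have hd := (den_pos ha hz).ne'
  have h2 := nsq_lt_one hz
  have h2' : 1 - nsq z ≠ 0 := by linarith
  have h3 : a ^ 2 < 1 := by rw [← sq_abs]; nlinarith [abs_nonneg a]
  have h3' : 1 - a ^ 2 ≠ 0 := by linarith
  have h5 : 1 + nsq (tau a z) = 2 - (1 - nsq (tau a z)) := by ring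
  have h6 : 2 - (1 - a ^ 2) * (1 - nsq z) / ((a * z.re + 1) ^ 2 + (a * z.im) ^ 2) =
      ((1 + a ^ 2) * (1 + nsq z) + 4 * a * z.re) / ((a * z.re + 1) ^ 2 + (a * z.im) ^ 2) := by
    rw [eq_div_iff hd, sub_mul, div_mul_cancel₀ _ hd]
    unfold nsq
    ring
  unfold X1 X0
  rw [h5, nsq_tau ha hz, h6]
  generalize (a * z.re + 1) ^ 2 + (a * z.im) ^ 2 = D at *
  field_simp
  ring

lemma X2_tau {a : ℝ} (ha : |a| < 1) {z : ℂ} (hz : ‖z‖ < 1) :
    X2 (tau a z) = X2 z := by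
  have hd := (den_pos ha hz).ne'
  have h2 := nsq_lt_one hz
  have h2' : 1 - nsq z ≠ 0 := by linarith
  have h3 : a ^ 2 < 1 := by rw [← sq_abs]; nlinarith [abs_nonneg a]
  have h3' : 1 - a ^ 2 ≠ 0 := by linarith
  unfold X2
  rw [nsq_tau ha hz, tau_im]
  generalize (a * z.re + 1) ^ 2 + (a * z.im) ^ 2 = D at *
  field_simp

lemma tau_neg_tau {a : ℝ} (ha : |a| < 1) {z : ℂ} (hz : ‖z‖ < 1) :
    tau (-a) (tau a z) = z := by
  have h1 := den_ne ha hz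
  have h3 : a ^ 2 < 1 := by rw [← sq_abs]; nlinarith [abs_nonneg a]
  have h3' : (1 - a ^ 2 : ℂ) ≠ 0 := by
    have : (1 - a ^ 2 : ℝ) ≠ 0 := by linarith
    exact_mod_cast this
  have e : ((-a : ℝ) : ℂ) = -(a : ℂ) := by push_cast; ring
  rw [← e, tau_real_eq, tau_real_eq, e]
  have h5 : (-(a : ℂ) * ((z + a) / (a * z + 1)) + 1) = (1 - a ^ 2) / (a * z + 1) := by
    rw [eq_div_iff h1, add_mul, mul_assoc, div_mul_cancel₀ _ h1]
    ring
  have h6 : ((z + a) / (a * z + 1) + -(a : ℂ)) = z * (1 - a ^ 2) / (a * z + 1) := by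
    rw [eq_div_iff h1, add_mul, div_mul_cancel₀ _ h1]
    ring
  rw [h5, h6]
  generalize (a * z + 1 : ℂ) = D at *
  field_simp

lemma tau_tau_neg {a : ℝ} (ha : |a| < 1) {z : ℂ} (hz : ‖z‖ < 1) :
    tau a (tau (-a) z) = z := by
  have ha' : |-a| < 1 := by rwa [abs_neg]
  have := tau_neg_tau ha' hz
  simpa using this

/-- foot coordinate along the real axis -/
noncomputable def xx (z : ℂ) : ℝ := Real.arsinh (X1 z / √(1 + X2 z ^ 2))

lemma mem_Ioo_of_abs {a : ℝ} (ha : |a| < 1) : a ∈ Set.Ioo (-1 : ℝ) 1 := abs_lt.1 ha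

lemma cosh_two_artanh {a : ℝ} (ha : |a| < 1) :
    Real.cosh (2 * Real.artanh a) = (1 + a ^ 2) / (1 - a ^ 2) := by
  have h3 : a ^ 2 < 1 := by rw [← sq_abs]; nlinarith [abs_nonneg a]
  have h3' : 1 - a ^ 2 ≠ 0 := by linarith
  have hs : √(1 - a ^ 2) ^ 2 = 1 - a ^ 2 := Real.sq_sqrt (by linarith)
  have hs0 : √(1 - a ^ 2) ≠ 0 := (Real.sqrt_pos.2 (by linarith)).ne'
  rw [Real.cosh_two_mul, Real.cosh_artanh (mem_Ioo_of_abs ha), Real.sinh_artanh (mem_Ioo_of_abs ha),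
    div_pow, div_pow, hs]
  field_simp

lemma sinh_two_artanh {a : ℝ} (ha : |a| < 1) :
    Real.sinh (2 * Real.artanh a) = 2 * a / (1 - a ^ 2) := by
  have h3 : a ^ 2 < 1 := by rw [← sq_abs]; nlinarith [abs_nonneg a]
  have h3' : 1 - a ^ 2 ≠ 0 := by linarith
  have hs : √(1 - a ^ 2) ^ 2 = 1 - a ^ 2 := Real.sq_sqrt (by linarith)
  have hs0 : √(1 - a ^ 2) ≠ 0 := (Real.sqrt_pos.2 (by linarith)).ne'
  rw [Real.sinh_two_mul, Real.cosh_artanh (mem_Ioo_of_abs ha), Real.sinh_artanh (mem_Ioo_of_abs ha)]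
  have : 2 * (a / √(1 - a ^ 2)) * (1 / √(1 - a ^ 2)) = 2 * a / (√(1 - a ^ 2) ^ 2) := by
    field_simp
  rw [this, hs]

lemma xx_tau {a : ℝ} (ha : |a| < 1) {z : ℂ} (hz : ‖z‖ < 1) :
    xx (tau a z) = xx z + 2 * Real.artanh a := by
  apply Real.sinh_injective
  have hr := X_rel hz
  have h0 := X0_pos hz
  have hp : 0 < √(1 + X2 z ^ 2) := Real.sqrt_pos.2 (by positivity)
  have hp2 : √(1 + X2 z ^ 2) ^ 2 = 1 + X2 z ^ 2 := Real.sq_sqrt (by positivity)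
  have hc : Real.cosh (xx z) = X0 z / √(1 + X2 z ^ 2) := by
    unfold xx
    rw [Real.cosh_arsinh, Real.sqrt_eq_iff_mul_self_eq_of_pos (by positivity)]
    rw [div_mul_div_comm, ← sq, ← sq, div_pow, hp2]
    field_simp
    linarith
  rw [Real.sinh_add, hc, cosh_two_artanh ha, sinh_two_artanh ha]
  unfold xx
  rw [Real.sinh_arsinh, Real.sinh_arsinh, X2_tau ha hz, X1_tau ha hz]
  field_simp
  ring

/-- half-width at level `t` -/
noncomputable def wid (b t : ℝ) : ℝ := Real.arsinh (Real.sinh b / √(1 + t ^ 2))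

lemma lt_iff_xx {b : ℝ} {z : ℂ} : Real.arsinh (X1 z) < b ↔ xx z < wid b (X2 z) := by
  have hp : 0 < √(1 + X2 z ^ 2) := Real.sqrt_pos.2 (by positivity)
  unfold xx wid
  rw [Real.arsinh_lt_arsinh, div_lt_div_iff_of_pos_right hp, ← Real.sinh_lt_sinh,
    Real.sinh_arsinh]

lemma le_iff_xx {b : ℝ} {z : ℂ} : b ≤ Real.arsinh (X1 z) ↔ wid b (X2 z) ≤ xx z := by
  rw [← not_lt, ← not_lt, lt_iff_xx]

lemma wid_neg (b t : ℝ) : wid (-b) t = - wid b t := by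
  unfold wid; rw [Real.sinh_neg, neg_div, Real.arsinh_neg]

lemma mem_Q_iff' {α : ℝ} {z : ℂ} : z ∈ Q α ↔
    ‖z‖ < 1 ∧ -wid (bwid α) (X2 z) ≤ xx z ∧ xx z < wid (bwid α) (X2 z) ∧
      -bwid α ≤ Real.arsinh (X2 z) ∧ Real.arsinh (X2 z) < bwid α := by
  rw [mem_Q_iff, lt_iff_xx, le_iff_xx, wid_neg]

/-- membership in `H` -/
lemma mem_H_iff {c s : ℝ} (hc : |c| < 1) {z : ℂ} (hz : ‖z‖ < 1) :
    z ∈ H c s ↔ delta (tau (-c) z) < s := by
  have hc' : |-c| < 1 := by rwa [abs_neg]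
  constructor
  · rintro ⟨u, ⟨hu, hus⟩, rfl⟩
    rwa [tau_neg_tau hc hu]
  · intro h
    refine ⟨tau (-c) z, ⟨?_, h⟩, tau_tau_neg hc hz⟩
    have := norm_tau_lt hc' hz
    simpa using this

/-- Admissible parameters. -/
structure Par (α β : ℝ) : Prop where
  b0 : 0 < β
  ba : β < α
  a1 : α < 1
  lo : ∀ t : ℝ, -bwid α ≤ Real.arsinh t → Real.arsinh t < bwid α →
    2 * Real.artanh α ≤ 2 * wid (bwid α) t
  hi : ∀ t : ℝ, -bwid α ≤ Real.arsinh t → Real.arsinh t < bwid α →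
    2 * wid (bwid α) t ≤ 2 * Real.artanh α + 2 * Real.artanh β

namespace Par

variable {α β : ℝ} (h : Par α β)
include h

lemma absα : |α| < 1 := by
  rw [abs_of_pos (h.b0.trans h.ba)]; exact h.a1

lemma absβ : |β| < 1 := by
  rw [abs_of_pos h.b0]; exact h.ba.trans h.a1

lemma absnα : |-α| < 1 := by rw [abs_neg]; exact h.absα
lemma absnβ : |-β| < 1 := by rw [abs_neg]; exact h.absβ

lemma art_lt : Real.artanh β < Real.artanh α :=
  Real.artanh_lt_artanh (by linarith [h.b0]) h.a1 h.ba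

lemma art_pos : 0 < Real.artanh β := Real.artanh_pos ⟨h.b0, h.ba.trans h.a1⟩

omit h in
lemma artanh_neg' (x : ℝ) (hx : |x| < 1) : Real.artanh (-x) = - Real.artanh x := by
  have h1 : Real.tanh (Real.artanh (-x)) = -x :=
    Real.tanh_artanh (mem_Ioo_of_abs (by rwa [abs_neg]))
  have h2 : Real.tanh (- Real.artanh x) = -x := by
    rw [Real.tanh_neg, Real.tanh_artanh (mem_Ioo_of_abs hx)]
  exact Real.tanh_injective (h1.trans h2.symm)

lemma quad_iff {z : ℂ} (hz : z ∈ Q α) :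
    z ∈ quadrangle α β ↔ xx z + 2 * Real.artanh β < wid (bwid α) (X2 z) := by
  have hz1 : ‖z‖ < 1 := (mem_Q_iff.1 hz).1
  unfold quadrangle
  have e : (-β : ℝ) = -β := rfl
  rw [Set.mem_inter_iff, mem_H_iff h.absnβ hz1]
  simp only [hz, true_and]
  have e2 : tau (-((-β : ℝ) : ℂ)) z = tau β z := by push_cast; rw [neg_neg]
  rw [e2, delta_eq (norm_tau_lt h.absβ hz1), lt_iff_xx, xx_tau h.absβ hz1, X2_tau h.absβ hz1]

omit h in
lemma tau_negα {z : ℂ} : tau (-(α : ℂ)) z = tau ((-α : ℝ) : ℂ) z := by push_cast; rfl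

lemma lens_iff {z : ℂ} (hz : z ∈ Q α) :
    z ∈ lens α ↔ - wid (bwid α) (X2 z) ≤ xx z - 2 * Real.artanh α := by
  have hz1 : ‖z‖ < 1 := (mem_Q_iff.1 hz).1
  unfold lens
  rw [Set.mem_sdiff, mem_H_iff h.absα hz1]
  simp only [hz, true_and, not_lt]
  rw [tau_negα, delta_eq (norm_tau_lt h.absnα hz1), le_iff_xx, xx_tau h.absnα hz1,
    X2_tau h.absnα hz1, wid_neg, artanh_neg' α h.absα]
  constructor <;> intro h' <;> linarith

lemma phi_cases {z : ℂ} (hz : z ∈ Q α) :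
    (xx z + 2 * Real.artanh β < wid (bwid α) (X2 z) ∧ phi α β z = tau β z) ∨
    (wid (bwid α) (X2 z) ≤ xx z + 2 * Real.artanh β ∧
      - wid (bwid α) (X2 z) ≤ xx z - 2 * Real.artanh α ∧ phi α β z = tau (-α) z) ∨
    (wid (bwid α) (X2 z) ≤ xx z + 2 * Real.artanh β ∧
      xx z - 2 * Real.artanh α < - wid (bwid α) (X2 z) ∧
        phi α β z = tau (-α) (tau β z)) := by
  unfold phi
  by_cases h1 : z ∈ quadrangle α β
  · left
    refine ⟨(h.quad_iff hz).1 h1, ?_⟩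
    rw [if_pos h1]
  · right
    have h1' : wid (bwid α) (X2 z) ≤ xx z + 2 * Real.artanh β := by
      rw [h.quad_iff hz] at h1; linarith
    rw [if_neg h1]
    by_cases h2 : z ∈ lens α
    · left
      rw [if_pos h2]
      exact ⟨h1', (h.lens_iff hz).1 h2, rfl⟩
    · right
      rw [if_neg h2]
      rw [h.lens_iff hz, not_le] at h2
      exact ⟨h1', h2, rfl⟩

lemma X2_phi {z : ℂ} (hz : z ∈ Q α) : X2 (phi α β z) = X2 z := by
  have hz1 : ‖z‖ < 1 := (mem_Q_iff.1 hz).1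
  rcases h.phi_cases hz with ⟨-, e⟩ | ⟨-, -, e⟩ | ⟨-, -, e⟩
  · rw [e, X2_tau h.absβ hz1]
  · rw [e, tau_negα, X2_tau h.absnα hz1]
  · rw [e, tau_negα, X2_tau h.absnα (norm_tau_lt h.absβ hz1), X2_tau h.absβ hz1]

lemma norm_phi {z : ℂ} (hz : z ∈ Q α) : ‖phi α β z‖ < 1 := by
  have hz1 : ‖z‖ < 1 := (mem_Q_iff.1 hz).1
  rcases h.phi_cases hz with ⟨-, e⟩ | ⟨-, -, e⟩ | ⟨-, -, e⟩
  · rw [e]; exact norm_tau_lt h.absβ hz1
  · rw [e, tau_negα]; exact norm_tau_lt h.absnα hz1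
  · rw [e, tau_negα]; exact norm_tau_lt h.absnα (norm_tau_lt h.absβ hz1)

lemma xx_tα {z : ℂ} (hz1 : ‖z‖ < 1) : xx (tau (-(α : ℂ)) z) = xx z - 2 * Real.artanh α := by
  rw [tau_negα, xx_tau h.absnα hz1, artanh_neg' α h.absα]; ring

lemma mapsTo : Set.MapsTo (phi α β) (Q α) (Q α) := by
  intro z hz
  have hX2 := h.X2_phi hz
  have hn := h.norm_phi hz
  have hz' := mem_Q_iff'.1 hz
  obtain ⟨hz1, h1, h2, h3, h4⟩ := hz'
  have hlo := h.lo _ h3 h4
  have hhi := h.hi _ h3 h4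
  have hlt := h.art_lt
  have hpos := h.art_pos
  rw [mem_Q_iff', hX2]
  rcases h.phi_cases hz with ⟨c1, e⟩ | ⟨c1, c2, e⟩ | ⟨c1, c2, e⟩
  · have hx : xx (phi α β z) = xx z + 2 * Real.artanh β := by rw [e, xx_tau h.absβ hz1]
    refine ⟨hn, ?_, ?_, h3, h4⟩ <;> rw [hx] <;> linarith
  · have hx : xx (phi α β z) = xx z - 2 * Real.artanh α := by rw [e, h.xx_tα hz1]
    refine ⟨hn, ?_, ?_, h3, h4⟩ <;> rw [hx] <;> linarith
  · have hx : xx (phi α β z) = xx z + 2 * Real.artanh β - 2 * Real.artanh α := by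
      rw [e, h.xx_tα (norm_tau_lt h.absβ hz1), xx_tau h.absβ hz1]
    refine ⟨hn, ?_, ?_, h3, h4⟩ <;> rw [hx] <;> linarith

omit h in
lemma tau_inj {a : ℝ} (ha : |a| < 1) {z w : ℂ} (hz : ‖z‖ < 1) (hw : ‖w‖ < 1)
    (e : tau a z = tau a w) : z = w := by
  rw [← tau_neg_tau ha hz, ← tau_neg_tau ha hw, e]

lemma injOn : Set.InjOn (phi α β) (Q α) := by
  intro z hz w hw e
  have hX2z := h.X2_phi hz
  have hX2w := h.X2_phi hw
  rw [e, hX2w] at hX2z
  obtain ⟨hz1, h1, h2, h3, h4⟩ := mem_Q_iff'.1 hz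
  obtain ⟨hw1, k1, k2, k3, k4⟩ := mem_Q_iff'.1 hw
  have hlo := h.lo _ h3 h4
  have hhi := h.hi _ h3 h4
  have hlt := h.art_lt
  have hpos := h.art_pos
  have hzb := norm_tau_lt h.absβ hz1
  have hwb := norm_tau_lt h.absβ hw1
  have ex := congrArg xx e
  rw [hX2z] at k1 k2
  rcases h.phi_cases hz with ⟨c1, e1⟩ | ⟨c1, c2, e1⟩ | ⟨c1, c2, e1⟩ <;>
  rcases h.phi_cases hw with ⟨d1, e2⟩ | ⟨d1, d2, e2⟩ | ⟨d1, d2, e2⟩ <;>
  rw [hX2z] at d1 <;> (try rw [hX2z] at d2)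
  · rw [e1, e2] at e
    exact tau_inj h.absβ hz1 hw1 e
  · exfalso
    rw [e1, e2, xx_tau h.absβ hz1, h.xx_tα hw1] at ex
    linarith
  · exfalso
    rw [e1, e2, xx_tau h.absβ hz1, h.xx_tα hwb, xx_tau h.absβ hw1] at ex
    linarith
  · exfalso
    rw [e1, e2, xx_tau h.absβ hw1, h.xx_tα hz1] at ex
    linarith
  · rw [e1, e2, tau_negα, tau_negα] at e
    exact tau_inj h.absnα hz1 hw1 e
  · exfalso
    rw [e1, e2, h.xx_tα hz1, h.xx_tα hwb, xx_tau h.absβ hw1] at ex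
    linarith
  · exfalso
    rw [e1, e2, xx_tau h.absβ hw1, h.xx_tα hzb, xx_tau h.absβ hz1] at ex
    linarith
  · exfalso
    rw [e1, e2, h.xx_tα hw1, h.xx_tα hzb, xx_tau h.absβ hz1] at ex
    linarith
  · rw [e1, e2, tau_negα, tau_negα] at e
    exact tau_inj h.absβ hz1 hw1 (tau_inj h.absnα hzb hwb e)

lemma surjOn : Set.SurjOn (phi α β) (Q α) (Q α) := by
  intro y hy
  obtain ⟨hy1, h1, h2, h3, h4⟩ := mem_Q_iff'.1 hy
  have hlo := h.lo _ h3 h4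
  have hhi := h.hi _ h3 h4
  have hlt := h.art_lt
  have hpos := h.art_pos
  set w := wid (bwid α) (X2 y) with hw
  by_cases c1 : -w ≤ xx y - 2 * Real.artanh β
  · -- preimage in the quadrangle
    set z := tau ((-β : ℝ) : ℂ) y with hz
    have hz1 : ‖z‖ < 1 := norm_tau_lt h.absnβ hy1
    have hzx : xx z = xx y - 2 * Real.artanh β := by
      rw [hz, xx_tau h.absnβ hy1, artanh_neg' β h.absβ]; ring
    have hz2 : X2 z = X2 y := X2_tau h.absnβ hy1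
    have hzQ : z ∈ Q α := by
      rw [mem_Q_iff', hz2, hzx, ← hw]
      exact ⟨hz1, c1, by linarith, h3, h4⟩
    refine ⟨z, hzQ, ?_⟩
    have hyz : tau β z = y := by
      rw [hz]; push_cast
      exact tau_tau_neg h.absβ hy1
    rcases h.phi_cases hzQ with ⟨-, e⟩ | ⟨c3, -, e⟩ | ⟨c3, -, e⟩
    · rw [e, hyz]
    · exfalso; rw [hz2, hzx, ← hw] at c3; linarith
    · exfalso; rw [hz2, hzx, ← hw] at c3; linarith
  · push Not at c1
    by_cases c2 : xx y + 2 * Real.artanh α < w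
    · set z := tau α y with hz
      have hz1 : ‖z‖ < 1 := norm_tau_lt h.absα hy1
      have hzx : xx z = xx y + 2 * Real.artanh α := by
        rw [hz, xx_tau h.absα hy1]
      have hz2 : X2 z = X2 y := X2_tau h.absα hy1
      have hzQ : z ∈ Q α := by
        rw [mem_Q_iff', hz2, hzx, ← hw]
        exact ⟨hz1, by linarith, c2, h3, h4⟩
      refine ⟨z, hzQ, ?_⟩
      have hyz : tau (-α) z = y := tau_neg_tau h.absα hy1
      rcases h.phi_cases hzQ with ⟨c3, e⟩ | ⟨c3, c4, e⟩ | ⟨c3, c4, e⟩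
      · exfalso; rw [hz2, hzx, ← hw] at c3; linarith
      · rw [e, hyz]
      · exfalso; rw [hz2, hzx, ← hw] at c4; linarith
    · push Not at c2
      set z := tau ((-β : ℝ) : ℂ) (tau α y) with hz
      have hay1 : ‖tau α y‖ < 1 := norm_tau_lt h.absα hy1
      have hz1 : ‖z‖ < 1 := norm_tau_lt h.absnβ hay1
      have hzx : xx z = xx y + 2 * Real.artanh α - 2 * Real.artanh β := by
        rw [hz, xx_tau h.absnβ hay1, xx_tau h.absα hy1, artanh_neg' β h.absβ]; ring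
      have hz2 : X2 z = X2 y := by
        rw [hz, X2_tau h.absnβ hay1, X2_tau h.absα hy1]
      have hzQ : z ∈ Q α := by
        rw [mem_Q_iff', hz2, hzx, ← hw]
        exact ⟨hz1, by linarith, by linarith, h3, h4⟩
      refine ⟨z, hzQ, ?_⟩
      have hyz : tau (-α) (tau β z) = y := by
        rw [hz]; push_cast
        rw [tau_tau_neg h.absβ hay1]
        exact tau_neg_tau h.absα hy1
      rcases h.phi_cases hzQ with ⟨c3, e⟩ | ⟨c3, c4, e⟩ | ⟨c3, c4, e⟩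
      · exfalso; rw [hz2, hzx, ← hw] at c3; linarith
      · exfalso; rw [hz2, hzx, ← hw] at c4; linarith
      · rw [e, hyz]

lemma bijOn : Set.BijOn (phi α β) (Q α) (Q α) := ⟨h.mapsTo, h.injOn, h.surjOn⟩

lemma bijOn_psi : Set.BijOn (psi α β) (Q α) (Q α) := by
  have hb := h.bijOn
  refine ⟨?_, ?_, ?_⟩
  · intro z hz
    exact sig_mem_Q (hb.mapsTo (sig_mem_Q hz))
  · intro z hz w hw e
    have e1 : phi α β (sig z) = phi α β (sig w) := by
      have := congrArg sig e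
      unfold psi at this
      rwa [sig_sig, sig_sig] at this
    have e2 := hb.injOn (sig_mem_Q hz) (sig_mem_Q hw) e1
    rw [← sig_sig z, ← sig_sig w, e2]
  · intro y hy
    obtain ⟨x, hx, hxy⟩ := hb.surjOn (sig_mem_Q hy)
    refine ⟨sig x, sig_mem_Q hx, ?_⟩
    unfold psi
    rw [sig_sig, hxy, sig_sig]

end Par

end Pool.Agent.Work.MP_af08fa_gt
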