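import Mathlib
import Pool.Agent.Work.MP_af08fa_gt.Trans

/-!
The parameters `(α, betaLow α)` are admissible, and a rational parametrisation.
-/

set_option autoImplicit false

open scoped ComplexConjugate

namespace Pool.Agent.Work.MP_af08fa_gt

section

variable {α : ℝ} (h0 : 0 < α) (h1 : α < √(2 * √3 - 3))
include h0 h1

omit h0 h1 in
lemma sqrt3_facts : (√3 : ℝ) ^ 2 = 3 ∧ 1.7 < √3 ∧ √3 < 1.74 := by
  refine ⟨Real.sq_sqrt (by norm_num), ?_, ?_⟩
  · rw [Real.lt_sqrt (by norm_num)]; norm_num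
  · rw [Real.sqrt_lt' (by norm_num)]; norm_num

omit h0 in
lemma sq_lt (h0 : 0 < α) : α ^ 2 < 2 * √3 - 3 := by
  have h := sqrt3_facts
  have hn : 0 ≤ 2 * √3 - 3 := by linarith [h.2.1]
  have := Real.sq_sqrt hn
  rw [← this]
  exact pow_lt_pow_left₀ h1 h0.le two_ne_zero

lemma sq_lt_half : α ^ 2 < 1 / 2 := by
  have h := sqrt3_facts
  have := sq_lt h1 h0
  linarith [h.2.2]

lemma s_sq : √(1 - α ^ 2) ^ 2 = 1 - α ^ 2 := by
  have := sq_lt_half h0 h1
  exact Real.sq_sqrt (by linarith)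

lemma s_pos : 0 < √(1 - α ^ 2) := by
  have := sq_lt_half h0 h1
  exact Real.sqrt_pos.2 (by linarith)

omit h1 in
lemma s_lt_one : √(1 - α ^ 2) < 1 := by
  rw [Real.sqrt_lt' (by norm_num)]
  nlinarith

lemma s_lower : √3 - 1 < √(1 - α ^ 2) := by
  have h := sqrt3_facts
  rw [Real.lt_sqrt (by linarith [h.2.1])]
  have := sq_lt h1 h0
  nlinarith [h.1]

lemma key_pos : 1 - √(1 - α ^ 2) < √(1 - α ^ 2) - α ^ 2 := by
  have h := sqrt3_facts
  have h2 := s_sq h0 h1
  have h3 := s_lower h0 h1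
  nlinarith [h.1, h.2.1]

lemma den_pos' : 0 < √(1 - α ^ 2) - α ^ 2 := by
  have := key_pos h0 h1
  have := s_lt_one h0
  linarith

lemma beta_pos : 0 < betaLow α := by
  have := s_lt_one h0
  unfold betaLow
  apply div_pos (mul_pos h0 (by linarith)) (den_pos' h0 h1)

lemma beta_lt : betaLow α < α := by
  have h2 := key_pos h0 h1
  have h3 := den_pos' h0 h1
  unfold betaLow
  rw [div_lt_iff₀ h3]
  exact mul_lt_mul_of_pos_left h2 h0

lemma alpha_lt_one : α < 1 := by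
  have := sq_lt_half h0 h1
  nlinarith

lemma cosh_two_bwid : Real.cosh (2 * bwid α) = 1 / (1 - 2 * α ^ 2) := by
  have h2 := sq_lt_half h0 h1
  unfold bwid
  have e : 2 * (Real.arcosh (1 / (1 - 2 * α ^ 2)) / 2) = Real.arcosh (1 / (1 - 2 * α ^ 2)) := by
    ring
  rw [e, Real.cosh_arcosh]
  rw [le_div_iff₀ (by linarith)]
  nlinarith [sq_nonneg α]

lemma bwid_pos : 0 < bwid α := by
  have h2 := sq_lt_half h0 h1
  unfold bwid
  have : 0 < Real.arcosh (1 / (1 - 2 * α ^ 2)) := by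
    apply Real.arcosh_pos
    rw [lt_div_iff₀ (by linarith)]
    nlinarith [sq_nonneg α]
  linarith

lemma sinh_sq_bwid : Real.sinh (bwid α) ^ 2 = α ^ 2 / (1 - 2 * α ^ 2) := by
  have h2 := sq_lt_half h0 h1
  have h3 := cosh_two_bwid h0 h1
  rw [Real.cosh_two_mul, Real.cosh_sq] at h3
  have h4 : (1 - 2 * α ^ 2) ≠ 0 := by linarith
  have h5 : Real.sinh (bwid α) ^ 2 = (1 / (1 - 2 * α ^ 2) - 1) / 2 := by linarith
  rw [h5]
  field_simp
  ring

lemma cosh_sq_bwid : Real.cosh (bwid α) ^ 2 = (1 - α ^ 2) / (1 - 2 * α ^ 2) := by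
  have h2 := sq_lt_half h0 h1
  have h4 : (1 - 2 * α ^ 2) ≠ 0 := by linarith
  rw [Real.cosh_sq, sinh_sq_bwid h0 h1, eq_div_iff h4, add_mul, div_mul_cancel₀ _ h4]
  ring

lemma tanh_bwid : Real.sinh (bwid α) * √(1 - α ^ 2) = α * Real.cosh (bwid α) := by
  have hs := s_pos h0 h1
  have hb := bwid_pos h0 h1
  have hsb : 0 < Real.sinh (bwid α) := Real.sinh_pos_iff.2 hb
  have hcb : 0 < Real.cosh (bwid α) := Real.cosh_pos _
  have h2 := sq_lt_half h0 h1
  have h4 : (1 - 2 * α ^ 2) ≠ 0 := by linarith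
  have : (Real.sinh (bwid α) * √(1 - α ^ 2)) ^ 2 = (α * Real.cosh (bwid α)) ^ 2 := by
    rw [mul_pow, mul_pow, sinh_sq_bwid h0 h1, cosh_sq_bwid h0 h1, s_sq h0 h1]
    field_simp
  exact (pow_left_inj₀ (by positivity) (by positivity) two_ne_zero).1 this

lemma par_lo (t : ℝ) (k1 : -bwid α ≤ Real.arsinh t) (k2 : Real.arsinh t < bwid α) :
    2 * Real.artanh α ≤ 2 * wid (bwid α) t := by
  have hs := s_pos h0 h1
  have hb := bwid_pos h0 h1
  have hcb : 0 < Real.cosh (bwid α) := Real.cosh_pos _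
  have hsb : 0 < Real.sinh (bwid α) := Real.sinh_pos_iff.2 hb
  have ha1 := alpha_lt_one h0 h1
  have h5 : √(1 + t ^ 2) ≤ Real.cosh (bwid α) := by
    rw [← Real.cosh_arsinh, Real.cosh_le_cosh, abs_of_pos hb, abs_le]
    exact ⟨k1, k2.le⟩
  have hpos : 0 < √(1 + t ^ 2) := Real.sqrt_pos.2 (by positivity)
  have h6 : Real.sinh (Real.artanh α) ≤ Real.sinh (wid (bwid α) t) := by
    rw [Real.sinh_artanh ⟨by linarith, ha1⟩]
    unfold wid
    rw [Real.sinh_arsinh]
    have e : α / √(1 - α ^ 2) = Real.sinh (bwid α) / Real.cosh (bwid α) := by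
      rw [div_eq_div_iff hs.ne' hcb.ne']
      exact (tanh_bwid h0 h1).symm
    rw [e]
    exact div_le_div_of_nonneg_left hsb.le hpos h5
  rw [Real.sinh_le_sinh] at h6
  linarith

lemma bwid_eq : bwid α = Real.artanh α + Real.artanh (betaLow α) := by
  have hs := s_pos h0 h1
  have hd := den_pos' h0 h1
  have ha1 := alpha_lt_one h0 h1
  have hb0 := beta_pos h0 h1
  have hb1 := beta_lt h0 h1
  have hcb : 0 < Real.cosh (bwid α) := Real.cosh_pos _
  apply Real.tanh_injective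
  rw [Real.tanh_eq_sinh_div_cosh, Real.tanh_eq_sinh_div_cosh, Real.sinh_add, Real.cosh_add]
  have hA := Real.tanh_artanh (x := α) ⟨by linarith, ha1⟩
  have hB := Real.tanh_artanh (x := betaLow α) ⟨by linarith, by linarith⟩
  rw [Real.tanh_eq_sinh_div_cosh, div_eq_iff (Real.cosh_pos _).ne'] at hA hB
  rw [hA, hB]
  have hcA := Real.cosh_pos (Real.artanh α)
  have hcB := Real.cosh_pos (Real.artanh (betaLow α))
  have e : Real.sinh (bwid α) = α / √(1 - α ^ 2) * Real.cosh (bwid α) := by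
    rw [div_mul_eq_mul_div, eq_div_iff hs.ne']
    exact tanh_bwid h0 h1
  rw [e]
  have e2 : betaLow α * (√(1 - α ^ 2) - α ^ 2) = α * (1 - √(1 - α ^ 2)) := by
    unfold betaLow
    rw [div_mul_cancel₀ _ hd.ne']
  generalize √(1 - α ^ 2) = s at *
  generalize betaLow α = β at *
  have hab : 0 < 1 + α * β := by positivity
  have e3 : α * Real.cosh (Real.artanh α) * Real.cosh (Real.artanh β) +
      Real.cosh (Real.artanh α) * (β * Real.cosh (Real.artanh β)) =
      (α + β) * (Real.cosh (Real.artanh α) * Real.cosh (Real.artanh β)) := by ring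
  have e4 : Real.cosh (Real.artanh α) * Real.cosh (Real.artanh β) +
      α * Real.cosh (Real.artanh α) * (β * Real.cosh (Real.artanh β)) =
      (1 + α * β) * (Real.cosh (Real.artanh α) * Real.cosh (Real.artanh β)) := by ring
  rw [e3, e4, mul_div_mul_right _ _ (mul_pos hcA hcB).ne', mul_div_assoc, div_self hcb.ne',
    mul_one, div_eq_div_iff hs.ne' hab.ne']
  linarith

lemma par_hi (t : ℝ) : 2 * wid (bwid α) t ≤ 2 * Real.artanh α + 2 * Real.artanh (betaLow α) := by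
  have hb := bwid_pos h0 h1
  have hsb : 0 < Real.sinh (bwid α) := Real.sinh_pos_iff.2 hb
  have h6 : Real.sinh (wid (bwid α) t) ≤ Real.sinh (bwid α) := by
    unfold wid
    rw [Real.sinh_arsinh]
    apply div_le_self hsb.le
    rw [Real.one_le_sqrt]
    nlinarith [sq_nonneg t]
  rw [Real.sinh_le_sinh] at h6
  have := bwid_eq h0 h1
  linarith

lemma par : Par α (betaLow α) where
  b0 := beta_pos h0 h1
  ba := beta_lt h0 h1
  a1 := alpha_lt_one h0 h1
  lo := fun t k1 k2 => par_lo h0 h1 t k1 k2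
  hi := fun t _ _ => par_hi h0 h1 t

/-- The rational parameter. -/
lemma rat_param :
    ∃ t : ℝ, t = α / (1 + √(1 - α ^ 2)) ∧ (1 + t ^ 2) * α = 2 * t ∧
      (1 - 4 * t ^ 2 - t ^ 4) * betaLow α = 4 * t ^ 3 ∧ 0 < 1 - 4 * t ^ 2 - t ^ 4 ∧
      0 < 1 + t ^ 2 := by
  have hs := s_pos h0 h1
  have hd := den_pos' h0 h1
  have hs2 := s_sq h0 h1
  have e2 : betaLow α * (√(1 - α ^ 2) - α ^ 2) = α * (1 - √(1 - α ^ 2)) := by
    unfold betaLow
    rw [div_mul_cancel₀ _ hd.ne']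
  generalize √(1 - α ^ 2) = s at *
  generalize betaLow α = β at *
  have hc : 0 < 1 + s := by linarith
  refine ⟨α / (1 + s), rfl, ?_, ?_, ?_, by positivity⟩
  · have : (1 + (α / (1 + s)) ^ 2) = 2 / (1 + s) := by
      field_simp
      nlinarith
    rw [this]
    field_simp
  · have e3 : 1 - 4 * (α / (1 + s)) ^ 2 - (α / (1 + s)) ^ 4 = 4 * (s - α ^ 2) / (1 + s) ^ 2 := by
      field_simp
      have : α ^ 2 = 1 - s ^ 2 := by linarith
      have h4 : α ^ 4 = (1 - s ^ 2) ^ 2 := by rw [← this]; ring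
      rw [h4, this]
      ring
    rw [e3]
    have : 4 * (s - α ^ 2) / (1 + s) ^ 2 * β = 4 * (β * (s - α ^ 2)) / (1 + s) ^ 2 := by ring
    rw [this, e2]
    field_simp
    have : α ^ 2 = 1 - s ^ 2 := by linarith
    rw [this]
    ring
  · have e3 : 1 - 4 * (α / (1 + s)) ^ 2 - (α / (1 + s)) ^ 4 = 4 * (s - α ^ 2) / (1 + s) ^ 2 := by
      field_simp
      have : α ^ 2 = 1 - s ^ 2 := by linarith
      have h4 : α ^ 4 = (1 - s ^ 2) ^ 2 := by rw [← this]; ring
      rw [h4, this]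
      ring
    rw [e3]
    positivity

end

end Pool.Agent.Work.MP_af08fa_gt
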