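import Mathlib

/-!
Syllable matrices, their polynomial dependence on the parameter and the ping-pong argument.
-/

set_option autoImplicit false

namespace Pool.Agent.Work.MP_af08fa_gt

open Matrix

/-- proportional to `1 + α` -/
def Ap (t : ℝ) : ℝ := (1 + t) ^ 2
/-- proportional to `1 - α` -/
def Am (t : ℝ) : ℝ := (1 - t) ^ 2
/-- proportional to `1 + β` -/
def Bp (t : ℝ) : ℝ := (1 - t) ^ 2 * (1 + 2 * t - t ^ 2)
/-- proportional to `1 - β` -/
def Bm (t : ℝ) : ℝ := (1 + t) ^ 2 * (1 - 2 * t - t ^ 2)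

/-- eigenvalues of a syllable -/
def dd (e : Bool) (p q : ℕ) (t : ℝ) : ℝ := cond e (Bp t ^ p * Am t ^ q) (Bm t ^ p * Ap t ^ q)

/-- matrix of a syllable -/
noncomputable def S (b e : Bool) (p q : ℕ) (t : ℝ) : Matrix (Fin 2) (Fin 2) ℝ :=
  cond b
    !![(dd e p q t + dd (!e) p q t) / 2, (dd e p q t - dd (!e) p q t) / 2;
       (dd e p q t - dd (!e) p q t) / 2, (dd e p q t + dd (!e) p q t) / 2]
    !![dd e p q t, 0; 0, dd (!e) p q t]

/-- A syllable: letter, sign, the two exponents. -/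
abbrev Syl := Bool × Bool × ℕ × ℕ

/-- matrix of a list of syllables -/
noncomputable def M : List Syl → ℝ → Matrix (Fin 2) (Fin 2) ℝ
  | [], _ => 1
  | s :: l, t => S s.1 s.2.1 s.2.2.1 s.2.2.2 t * M l t

/-- admissible lists -/
def Valid (l : List Syl) : Prop :=
  l.IsChain (fun s s' => s.1 ≠ s'.1) ∧ ∀ s ∈ l, s.2.2.1 ≠ 0 ∨ s.2.2.2 ≠ 0

/-- scalar matrices -/
def Scalar (A : Matrix (Fin 2) (Fin 2) ℝ) : Prop := A 0 1 = 0 ∧ A 1 0 = 0 ∧ A 0 0 = A 1 1

lemma dd_add (e : Bool) (p q p' q' : ℕ) (t : ℝ) :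
    dd e p q t * dd e p' q' t = dd e (p + p') (q + q') t := by
  cases e <;> simp [dd, pow_add] <;> ring

lemma S_mul (b e : Bool) (p q p' q' : ℕ) (t : ℝ) :
    S b e p q t * S b e p' q' t = S b e (p + p') (q + q') t := by
  have h1 := dd_add e p q p' q' t
  have h2 := dd_add (!e) p q p' q' t
  cases b
  · simp only [S, cond_false, Matrix.mul_fin_two]
    rw [← h1, ← h2]
    simp
  · simp only [S, cond_true, Matrix.mul_fin_two]
    rw [← h1, ← h2]
    congr 1
    ext i j
    fin_cases i <;> fin_cases j <;> simp <;> ring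

lemma S_inv (b e : Bool) (p q : ℕ) (t : ℝ) :
    S b e p q t * S b (!e) p q t = (dd e p q t * dd (!e) p q t) • (1 : Matrix (Fin 2) (Fin 2) ℝ) := by
  cases b
  · simp only [S, cond_false, Matrix.mul_fin_two, Bool.not_not]
    ext i j
    fin_cases i <;> fin_cases j <;> simp [mul_comm]
  · simp only [S, cond_true, Matrix.mul_fin_two, Bool.not_not]
    ext i j
    fin_cases i <;> fin_cases j <;> simp <;> ring

lemma M_append (l l' : List Syl) (t : ℝ) : M (l ++ l') t = M l t * M l' t := by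
  induction l with
  | nil => simp [M]
  | cons s l ih => simp [M, ih, Matrix.mul_assoc]

/-! ### Polynomial dependence -/

/-- polynomial functions with rational coefficients -/
def IsPoly (f : ℝ → ℝ) : Prop := ∃ P : Polynomial ℚ, ∀ t, f t = Polynomial.aeval t P

lemma IsPoly.const (c : ℚ) : IsPoly (fun _ => (c : ℝ)) := ⟨Polynomial.C c, by simp⟩
lemma IsPoly.id : IsPoly (fun t => t) := ⟨Polynomial.X, by simp⟩
lemma IsPoly.add {f g : ℝ → ℝ} (hf : IsPoly f) (hg : IsPoly g) : IsPoly (fun t => f t + g t) := by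
  obtain ⟨P, hP⟩ := hf
  obtain ⟨R, hR⟩ := hg
  exact ⟨P + R, fun t => by simp only [map_add, hP, hR]⟩
lemma IsPoly.sub {f g : ℝ → ℝ} (hf : IsPoly f) (hg : IsPoly g) : IsPoly (fun t => f t - g t) := by
  obtain ⟨P, hP⟩ := hf
  obtain ⟨R, hR⟩ := hg
  exact ⟨P - R, fun t => by simp only [map_sub, hP, hR]⟩
lemma IsPoly.mul {f g : ℝ → ℝ} (hf : IsPoly f) (hg : IsPoly g) : IsPoly (fun t => f t * g t) := by
  obtain ⟨P, hP⟩ := hf
  obtain ⟨R, hR⟩ := hg
  exact ⟨P * R, fun t => by simp only [map_mul, hP, hR]⟩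
lemma IsPoly.pow {f : ℝ → ℝ} (hf : IsPoly f) (n : ℕ) : IsPoly (fun t => f t ^ n) := by
  obtain ⟨P, hP⟩ := hf
  exact ⟨P ^ n, fun t => by simp only [map_pow, hP]⟩
lemma IsPoly.half {f : ℝ → ℝ} (hf : IsPoly f) : IsPoly (fun t => f t / 2) := by
  have := hf.mul (IsPoly.const (1 / 2))
  have e : (fun t => f t / 2) = fun t => f t * ((1 / 2 : ℚ) : ℝ) := by
    funext t; push_cast; ring
  rw [e]; exact this
lemma IsPoly.one : IsPoly (fun _ => (1 : ℝ)) := by simpa using IsPoly.const 1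
lemma IsPoly.two : IsPoly (fun _ => (2 : ℝ)) := by simpa using IsPoly.const 2
lemma IsPoly.zero : IsPoly (fun _ => (0 : ℝ)) := by simpa using IsPoly.const 0

lemma isPoly_Ap : IsPoly Ap := (IsPoly.one.add IsPoly.id).pow 2
lemma isPoly_Am : IsPoly Am := (IsPoly.one.sub IsPoly.id).pow 2
lemma isPoly_Bp : IsPoly Bp :=
  ((IsPoly.one.sub IsPoly.id).pow 2).mul
    ((IsPoly.one.add (IsPoly.two.mul IsPoly.id)).sub (IsPoly.id.pow 2))
lemma isPoly_Bm : IsPoly Bm :=
  ((IsPoly.one.add IsPoly.id).pow 2).mul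
    ((IsPoly.one.sub (IsPoly.two.mul IsPoly.id)).sub (IsPoly.id.pow 2))

lemma isPoly_dd (e : Bool) (p q : ℕ) : IsPoly (dd e p q) := by
  cases e
  · exact (isPoly_Bm.pow p).mul (isPoly_Ap.pow q)
  · exact (isPoly_Bp.pow p).mul (isPoly_Am.pow q)

lemma isPoly_S (b e : Bool) (p q : ℕ) (i j : Fin 2) : IsPoly (fun t => S b e p q t i j) := by
  have h1 := isPoly_dd e p q
  have h2 := isPoly_dd (!e) p q
  cases b
  · fin_cases i <;> fin_cases j
    · exact h1
    · exact IsPoly.zero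
    · exact IsPoly.zero
    · exact h2
  · fin_cases i <;> fin_cases j
    · exact (h1.add h2).half
    · exact (h1.sub h2).half
    · exact (h1.sub h2).half
    · exact (h1.add h2).half

lemma isPoly_M (l : List Syl) (i j : Fin 2) : IsPoly (fun t => M l t i j) := by
  induction l generalizing i j with
  | nil =>
    fin_cases i <;> fin_cases j
    · exact IsPoly.one
    · exact IsPoly.zero
    · exact IsPoly.zero
    · exact IsPoly.one
  | cons s l ih =>
    have e : (fun t => M (s :: l) t i j) = fun t =>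
        S s.1 s.2.1 s.2.2.1 s.2.2.2 t i 0 * M l t 0 j +
          S s.1 s.2.1 s.2.2.1 s.2.2.2 t i 1 * M l t 1 j := by
      funext t
      simp [M, Matrix.mul_apply, Fin.sum_univ_two]
    rw [e]
    exact ((isPoly_S _ _ _ _ i 0).mul (ih 0 j)).add ((isPoly_S _ _ _ _ i 1).mul (ih 1 j))

/-- If the matrix is not scalar at one parameter, it can be scalar at algebraic ones only. -/
lemma bad_algebraic_of (l : List Syl) (t₀ : ℝ) (h : ¬ Scalar (M l t₀)) (t : ℝ)
    (ht : Scalar (M l t)) : IsAlgebraic ℚ t := by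
  obtain ⟨P, hP⟩ := (((isPoly_M l 0 1).pow 2).add ((isPoly_M l 1 0).pow 2)).add
    (((isPoly_M l 0 0).sub (isPoly_M l 1 1)).pow 2)
  simp only at hP
  have hP0 : P ≠ 0 := by
    rintro rfl
    have h0 := hP t₀
    rw [map_zero] at h0
    apply h
    have a1 := sq_nonneg (M l t₀ 0 1)
    have a2 := sq_nonneg (M l t₀ 1 0)
    have a3 := sq_nonneg (M l t₀ 0 0 - M l t₀ 1 1)
    have b1 : M l t₀ 0 1 ^ 2 = 0 := by linarith
    have b2 : M l t₀ 1 0 ^ 2 = 0 := by linarith
    have b3 : (M l t₀ 0 0 - M l t₀ 1 1) ^ 2 = 0 := by linarith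
    refine ⟨pow_eq_zero_iff two_ne_zero |>.1 b1, pow_eq_zero_iff two_ne_zero |>.1 b2, ?_⟩
    exact sub_eq_zero.1 (pow_eq_zero_iff two_ne_zero |>.1 b3)
  obtain ⟨h1, h2, h3⟩ := ht
  refine ⟨P, hP0, ?_⟩
  rw [← hP t, h1, h2, h3]
  ring

/-! ### Ping-pong at the special parameter -/

/-- the special parameter -/
noncomputable def t0 : ℝ := √2 - 1

/-- quartic form separating the two cones -/
def qf (x y : ℝ) : ℝ := x ^ 4 - 6 * x ^ 2 * y ^ 2 + y ^ 4

/-- target sets of the two kinds of syllables -/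
def Pset (b : Bool) (x y : ℝ) : Prop :=
  (x ≠ 0 ∨ y ≠ 0) ∧ cond b (qf x y ≤ 0) (0 ≤ qf x y)

lemma qf_rot (x y : ℝ) : qf (x + y) (x - y) = -4 * qf x y := by unfold qf; ring

lemma Pset_rot (b : Bool) (x y : ℝ) : Pset b x y ↔ Pset (!b) (x + y) (x - y) := by
  have hne : (x ≠ 0 ∨ y ≠ 0) ↔ (x + y ≠ 0 ∨ x - y ≠ 0) := by
    constructor
    · intro h
      by_contra hcon
      push Not at hcon
      obtain ⟨h1, h2⟩ := hcon
      have hx : x = 0 := by linarith
      have hy : y = 0 := by linarith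
      rcases h with h | h
      · exact h hx
      · exact h hy
    · intro h
      by_contra hcon
      push Not at hcon
      obtain ⟨h1, h2⟩ := hcon
      rw [h1, h2] at h
      simp at h
  unfold Pset
  rw [hne, qf_rot]
  cases b
  · simp
  · simp only [Bool.not_true, cond_true, cond_false]
    constructor
    · rintro ⟨h1, h2⟩; exact ⟨h1, by linarith⟩
    · rintro ⟨h1, h2⟩; exact ⟨h1, by linarith⟩

/-- expanding pairs of eigenvalues -/
def Expn (d e : ℝ) : Prop :=
  (0 < d ∧ 0 ≤ e ∧ (3 + 2 * √2) * e ≤ d) ∨ (0 < e ∧ 0 ≤ d ∧ (3 + 2 * √2) * d ≤ e)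

lemma sqrt2_facts : (√2 : ℝ) ^ 2 = 2 ∧ 1.4 < √2 ∧ √2 < 1.5 := by
  refine ⟨Real.sq_sqrt (by norm_num), ?_, ?_⟩
  · rw [Real.lt_sqrt (by norm_num)]; norm_num
  · rw [Real.sqrt_lt' (by norm_num)]; norm_num

/-- with `k = 3 + 2√2`, `k' = 3 - 2√2`: `(a - k b)(a - k' b) = a² - 6ab + b²`. -/
lemma quad_fact (a b : ℝ) :
    a ^ 2 - 6 * a * b + b ^ 2 = (a - (3 + 2 * √2) * b) * (a - (3 - 2 * √2) * b) := by
  have := sqrt2_facts.1
  ring_nf
  rw [this]
  ring

lemma diag_step_aux {d e x y : ℝ} (hd : 0 < d) (he : 0 ≤ e) (hde : (3 + 2 * √2) * e ≤ d)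
    (hx : x ≠ 0) (hq : qf x y ≤ 0) : Pset false (d * x) (e * y) := by
  obtain ⟨h2, h3, h4⟩ := sqrt2_facts
  refine ⟨Or.inl (mul_ne_zero hd.ne' hx), ?_⟩
  simp only [cond_false]
  have e1 : qf x y = (y ^ 2) ^ 2 - 6 * (y ^ 2) * (x ^ 2) + (x ^ 2) ^ 2 := by unfold qf; ring
  have e2 : qf (d * x) (e * y) =
      ((d * x) ^ 2) ^ 2 - 6 * ((d * x) ^ 2) * ((e * y) ^ 2) + ((e * y) ^ 2) ^ 2 := by
    unfold qf; ring
  rw [e1, quad_fact] at hq
  rw [e2, quad_fact]
  have hx2 : 0 < x ^ 2 := by positivity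
  have hy2 : 0 ≤ y ^ 2 := sq_nonneg y
  -- `y² ≤ k x²`
  have h5 : y ^ 2 ≤ (3 + 2 * √2) * x ^ 2 := by
    by_contra hcon
    push Not at hcon
    have h6 : 0 < y ^ 2 - (3 + 2 * √2) * x ^ 2 := by linarith
    have h7 : 0 < y ^ 2 - (3 - 2 * √2) * x ^ 2 := by nlinarith
    nlinarith [mul_pos h6 h7]
  set k := 3 + 2 * √2 with hk
  have hk0 : 0 < k := by linarith
  -- `k² e² ≤ d²`
  have h6 : k ^ 2 * e ^ 2 ≤ d ^ 2 := by
    have : (k * e) ^ 2 ≤ d ^ 2 := pow_le_pow_left₀ (by positivity) hde 2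
    nlinarith
  have h7 : k * (e * y) ^ 2 ≤ (d * x) ^ 2 := by
    calc k * (e * y) ^ 2 = k * e ^ 2 * y ^ 2 := by ring
      _ ≤ k * e ^ 2 * (k * x ^ 2) := by
        apply mul_le_mul_of_nonneg_left h5 (by positivity)
      _ = (k ^ 2 * e ^ 2) * x ^ 2 := by ring
      _ ≤ d ^ 2 * x ^ 2 := mul_le_mul_of_nonneg_right h6 hx2.le
      _ = (d * x) ^ 2 := by ring
  have h8 : 0 ≤ (d * x) ^ 2 - k * (e * y) ^ 2 := by linarith
  have h9 : 0 ≤ (d * x) ^ 2 - (3 - 2 * √2) * (e * y) ^ 2 := by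
    have : (3 - 2 * √2) * (e * y) ^ 2 ≤ k * (e * y) ^ 2 := by
      apply mul_le_mul_of_nonneg_right _ (sq_nonneg _)
      linarith
    linarith
  exact mul_nonneg h8 h9

lemma qf_symm (x y : ℝ) : qf x y = qf y x := by unfold qf; ring

lemma Pset_symm {b : Bool} {x y : ℝ} (h : Pset b x y) : Pset b y x := by
  unfold Pset at *
  rw [qf_symm y x]
  exact ⟨h.1.symm, h.2⟩

lemma diag_step {d e x y : ℝ} (h : Expn d e) (hp : Pset true x y) :
    Pset false (d * x) (e * y) := by
  obtain ⟨hne, hq⟩ := hp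
  simp only [cond_true] at hq
  have hx : x ≠ 0 := by
    rintro rfl
    have hy : y ≠ 0 := by simpa using hne
    have : 0 < y ^ 4 := by positivity
    unfold qf at hq
    nlinarith
  have hy : y ≠ 0 := by
    rintro rfl
    have : 0 < x ^ 4 := by positivity
    unfold qf at hq
    nlinarith
  rcases h with ⟨h1, h2, h3⟩ | ⟨h1, h2, h3⟩
  · exact diag_step_aux h1 h2 h3 hx hq
  · rw [qf_symm] at hq
    exact Pset_symm (diag_step_aux h1 h2 h3 hy hq)

lemma Ap_t0 : Ap t0 = 2 := by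
  have := sqrt2_facts.1
  unfold Ap t0; nlinarith

lemma Am_t0 : Am t0 = 2 * (3 - 2 * √2) := by
  have := sqrt2_facts.1
  unfold Am t0; nlinarith

lemma Bm_t0 : Bm t0 = 0 := by
  have h : 1 - 2 * t0 - t0 ^ 2 = 0 := by
    have := sqrt2_facts.1
    unfold t0; nlinarith
  unfold Bm
  rw [h, mul_zero]

lemma Bp_t0_pos : 0 < Bp t0 := by
  obtain ⟨h2, h3, h4⟩ := sqrt2_facts
  unfold Bp t0
  have h5 : 0 < (1 - (√2 - 1)) ^ 2 := by
    have : (1 - (√2 - 1)) ≠ 0 := by linarith
    positivity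
  apply mul_pos h5
  nlinarith

lemma expn_true (p q : ℕ) (h : p ≠ 0 ∨ q ≠ 0) : Expn (dd true p q t0) (dd false p q t0) := by
  obtain ⟨h2, h3, h4⟩ := sqrt2_facts
  have hAm : 0 < Am t0 := by rw [Am_t0]; nlinarith
  unfold dd
  simp only [cond_true, cond_false]
  by_cases hp : p = 0
  · have hq : q ≠ 0 := by simpa [hp] using h
    subst hp
    right
    rw [pow_zero, pow_zero, one_mul, one_mul, Ap_t0, Am_t0, mul_pow]
    refine ⟨by positivity, ?_, ?_⟩
    · have : 0 ≤ 3 - 2 * √2 := by linarith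
      positivity
    · obtain ⟨n, rfl⟩ := Nat.exists_eq_succ_of_ne_zero hq
      have h6 : (3 - 2 * √2) ^ n ≤ 1 := pow_le_one₀ (by linarith) (by linarith)
      have h7 : (3 + 2 * √2) * (3 - 2 * √2) = 1 := by nlinarith
      have h8 : (3 + 2 * √2) * (2 ^ (n + 1) * (3 - 2 * √2) ^ (n + 1)) =
          2 ^ (n + 1) * (3 - 2 * √2) ^ n * ((3 + 2 * √2) * (3 - 2 * √2)) := by ring
      rw [h8, h7, mul_one]
      exact mul_le_of_le_one_right (by positivity) h6
  · left
    have h5 := Bp_t0_pos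
    rw [Bm_t0, zero_pow hp, zero_mul]
    refine ⟨by positivity, le_refl _, ?_⟩
    rw [mul_zero]; positivity

lemma expn (e : Bool) (p q : ℕ) (h : p ≠ 0 ∨ q ≠ 0) : Expn (dd e p q t0) (dd (!e) p q t0) := by
  cases e
  · exact (expn_true p q h).symm
  · exact expn_true p q h

/-- A syllable of kind `b` maps the set of the other kind to its own. -/
lemma S_step (b e : Bool) (p q : ℕ) (h : p ≠ 0 ∨ q ≠ 0) (v : Fin 2 → ℝ)
    (hv : Pset (!b) (v 0) (v 1)) :
    Pset b ((S b e p q t0 *ᵥ v) 0) ((S b e p q t0 *ᵥ v) 1) := by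
  have hE := expn e p q h
  cases b
  · have := diag_step hE hv
    simpa [S, Matrix.mulVec, dotProduct, Fin.sum_univ_two] using this
  · rw [Pset_rot] at hv
    have h1 := diag_step hE hv
    rw [Pset_rot]
    have e1 : (S true e p q t0 *ᵥ v) 0 + (S true e p q t0 *ᵥ v) 1 =
        dd e p q t0 * (v 0 + v 1) := by
      simp [S, Matrix.mulVec, dotProduct, Fin.sum_univ_two]; ring
    have e2 : (S true e p q t0 *ᵥ v) 0 - (S true e p q t0 *ᵥ v) 1 =
        dd (!e) p q t0 * (v 0 - v 1) := by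
      simp [S, Matrix.mulVec, dotProduct, Fin.sum_univ_two]; ring
    rw [e1, e2]
    exact h1

lemma M_step (l : List Syl) (hl : Valid l) (a c : Syl) (ha : l.head? = some a)
    (hc : l.getLast? = some c) (v : Fin 2 → ℝ) (hv : Pset (!c.1) (v 0) (v 1)) :
    Pset a.1 ((M l t0 *ᵥ v) 0) ((M l t0 *ᵥ v) 1) := by
  induction l generalizing a with
  | nil => simp at ha
  | cons s l ih =>
    simp only [List.head?_cons, Option.some.injEq] at ha
    subst ha
    have hs : s.2.2.1 ≠ 0 ∨ s.2.2.2 ≠ 0 := hl.2 s (by simp)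
    cases l with
    | nil =>
      simp only [List.getLast?_singleton, Option.some.injEq] at hc
      subst hc
      simp only [M, mul_one]
      exact S_step _ _ _ _ hs v hv
    | cons s' l' =>
      have hl' : Valid (s' :: l') := ⟨(List.isChain_cons_cons.1 hl.1).2,
        fun x hx => hl.2 x (List.mem_cons_of_mem _ hx)⟩
      have hne : s.1 ≠ s'.1 := (List.isChain_cons_cons.1 hl.1).1
      have hc' : (s' :: l').getLast? = some c := by
        rw [List.getLast?_cons_cons] at hc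
        exact hc
      have h1 := ih hl' s' rfl hc'
      have hb : s'.1 = !s.1 := by
        cases h5 : s.1 <;> cases h6 : s'.1 <;> simp_all
      rw [hb] at h1
      have h2 := S_step s.1 s.2.1 s.2.2.1 s.2.2.2 hs _ h1
      have e : M (s :: s' :: l') t0 *ᵥ v = S s.1 s.2.1 s.2.2.1 s.2.2.2 t0 *ᵥ (M (s' :: l') t0 *ᵥ v) := by
        rw [Matrix.mulVec_mulVec]; rfl
      rw [e]
      exact h2

lemma mulVec_scalar {A : Matrix (Fin 2) (Fin 2) ℝ} (h : Scalar A) (v : Fin 2 → ℝ) :
    (A *ᵥ v) 0 = A 0 0 * v 0 ∧ (A *ᵥ v) 1 = A 0 0 * v 1 := by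
  obtain ⟨h1, h2, h3⟩ := h
  constructor
  · simp [Matrix.mulVec, dotProduct, Fin.sum_univ_two, h1]
  · simp [Matrix.mulVec, dotProduct, Fin.sum_univ_two, h2, h3]

lemma not_scalar_same (l : List Syl) (hl : Valid l) (a c : Syl) (ha : l.head? = some a)
    (hc : l.getLast? = some c) (hac : a.1 = c.1) : ¬ Scalar (M l t0) := by
  intro hS
  cases hb : c.1
  · have h1 := M_step l hl a c ha hc ![1, 1] (by
      rw [hb]; refine ⟨by simp, ?_⟩; simp [qf]; norm_num)
    rw [hac, hb, (mulVec_scalar hS _).1, (mulVec_scalar hS _).2] at h1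
    obtain ⟨h2, h3⟩ := h1
    simp [qf] at h2 h3
    have : 0 < M l t0 0 0 ^ 4 := by positivity
    nlinarith
  · have h1 := M_step l hl a c ha hc ![1, 0] (by
      rw [hb]; refine ⟨by simp, ?_⟩; simp [qf])
    rw [hac, hb, (mulVec_scalar hS _).1, (mulVec_scalar hS _).2] at h1
    obtain ⟨h2, h3⟩ := h1
    simp [qf] at h2 h3
    have : 0 < M l t0 0 0 ^ 4 := by positivity
    nlinarith

lemma scalar_eq {A : Matrix (Fin 2) (Fin 2) ℝ} (h : Scalar A) : A = A 0 0 • 1 := by
  obtain ⟨h1, h2, h3⟩ := h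
  ext i j
  fin_cases i <;> fin_cases j <;> simp [h1, h2, h3]

lemma scalar_smul_one (c : ℝ) : Scalar (c • (1 : Matrix (Fin 2) (Fin 2) ℝ)) := by
  refine ⟨?_, ?_, ?_⟩ <;> simp

/-- Nonempty admissible lists give non-scalar matrices at the special parameter. -/
lemma not_scalar (l : List Syl) (hl : Valid l) (hne : l ≠ []) : ¬ Scalar (M l t0) := by
  cases l with
  | nil => exact absurd rfl hne
  | cons a r =>
    obtain ⟨b, e, p, q⟩ := a
    by_cases hlast : ∃ c, ((b, e, p, q) :: r).getLast? = some c ∧ c.1 = b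
    · obtain ⟨c, hc, hcb⟩ := hlast
      exact not_scalar_same _ hl _ c rfl hc hcb.symm
    · intro hS
      push Not at hlast
      -- conjugate
      set l'' : List Syl := (b, e, p, q + 1) :: (r ++ [(b, !e, 0, 1)]) with hl''
      have hchain : l''.IsChain (fun s s' => s.1 ≠ s'.1) := by
        have h1 : ((b, e, p, q + 1) :: r).IsChain (fun (s s' : Syl) => s.1 ≠ s'.1) := by
          have := hl.1
          rw [List.isChain_cons] at this ⊢
          exact this
        have : l'' = ((b, e, p, q + 1) :: r) ++ [(b, !e, 0, 1)] := rfl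
        rw [this, List.isChain_append]
        refine ⟨h1, List.isChain_singleton _, ?_⟩
        intro x hx y hy
        simp only [List.head?_cons, Option.mem_def, Option.some.injEq] at hy
        subst hy
        simp only
        rw [Option.mem_def] at hx
        cases r with
        | nil =>
          exfalso
          exact hlast (b, e, p, q) rfl rfl
        | cons s' r' =>
          rw [List.getLast?_cons_cons] at hx
          apply hlast x
          rw [List.getLast?_cons_cons]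
          exact hx
      have hval : Valid l'' := by
        refine ⟨hchain, ?_⟩
        intro s hs
        rw [hl'', List.mem_cons, List.mem_append, List.mem_singleton] at hs
        rcases hs with rfl | hs | rfl
        · right; simp
        · exact hl.2 s (List.mem_cons_of_mem _ hs)
        · right; simp
      have hM : M l'' t0 = S b e 0 1 t0 * M ((b, e, p, q) :: r) t0 * S b (!e) 0 1 t0 := by
        have e1 : S b e p (q + 1) t0 = S b e 0 1 t0 * S b e p q t0 := by
          rw [S_mul, zero_add, add_comm]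
        have : M l'' t0 = S b e p (q + 1) t0 * (M (r ++ [(b, !e, 0, 1)]) t0) := rfl
        rw [this, M_append, e1]
        simp only [M, mul_one, Matrix.mul_assoc]
      refine not_scalar_same l'' hval (b, e, p, q + 1) (b, !e, 0, 1) rfl ?_ rfl ?_
      · have : l'' = ((b, e, p, q + 1) :: r) ++ [(b, !e, 0, 1)] := rfl
        rw [this, List.getLast?_append]
        simp
      · rw [hM, scalar_eq hS, Matrix.mul_smul, Matrix.smul_mul, mul_one, S_inv, smul_smul]
        exact scalar_smul_one _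

lemma bad_algebraic (l : List Syl) (hl : Valid l) (hne : l ≠ []) (t : ℝ)
    (ht : Scalar (M l t)) : IsAlgebraic ℚ t :=
  bad_algebraic_of l t0 (not_scalar l hl hne) t ht

end Pool.Agent.Work.MP_af08fa_gt
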