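import Mathlib
import Pool.Agent.Work.MP_af08fa_gt.Params
import Pool.Agent.Work.MP_af08fa_gt.Syl

/-!
Pointwise, every word in the two maps acts as one of finitely many alternating products.
-/

set_option autoImplicit false

namespace Pool.Agent.Work.MP_af08fa_gt

open Matrix
open scoped ComplexConjugate

/-- The real matrix `A` represents a moebius map sending `z` to `w`. -/
def Rep (A : Matrix (Fin 2) (Fin 2) ℝ) (z w : ℂ) : Prop :=
  ∃ c : ℂ, c ≠ 0 ∧
    (A 0 0 : ℂ) * (z + 1) + (A 0 1 : ℂ) * (-Complex.I * (z - 1)) = c * (w + 1) ∧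
    (A 1 0 : ℂ) * (z + 1) + (A 1 1 : ℂ) * (-Complex.I * (z - 1)) = c * (-Complex.I * (w - 1))

lemma Rep.one (z : ℂ) : Rep 1 z z := ⟨1, one_ne_zero, by simp, by simp⟩

lemma Rep.mul {A B : Matrix (Fin 2) (Fin 2) ℝ} {z w v : ℂ} (h1 : Rep A z w) (h2 : Rep B w v) :
    Rep (B * A) z v := by
  obtain ⟨c, hc, h3, h4⟩ := h1
  obtain ⟨d, hd, h5, h6⟩ := h2
  refine ⟨c * d, mul_ne_zero hc hd, ?_, ?_⟩
  · rw [Matrix.mul_apply, Matrix.mul_apply, Fin.sum_univ_two, Fin.sum_univ_two]
    push_cast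
    linear_combination (B 0 0 : ℂ) * h3 + (B 0 1 : ℂ) * h4 + c * h5
  · rw [Matrix.mul_apply, Matrix.mul_apply, Fin.sum_univ_two, Fin.sum_univ_two]
    push_cast
    linear_combination (B 1 0 : ℂ) * h3 + (B 1 1 : ℂ) * h4 + c * h6

lemma Rep.inv {A B : Matrix (Fin 2) (Fin 2) ℝ} {z w : ℂ} (h1 : Rep A z w) {d : ℝ} (hd : d ≠ 0)
    (hBA : B * A = d • (1 : Matrix (Fin 2) (Fin 2) ℝ)) : Rep B w z := by
  obtain ⟨c, hc, h3, h4⟩ := h1
  have e00 : (B 0 0 : ℂ) * A 0 0 + B 0 1 * A 1 0 = d := by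
    have := congrFun (congrFun hBA 0) 0
    rw [Matrix.mul_apply, Fin.sum_univ_two] at this
    simp at this
    exact_mod_cast this
  have e01 : (B 0 0 : ℂ) * A 0 1 + B 0 1 * A 1 1 = 0 := by
    have := congrFun (congrFun hBA 0) 1
    rw [Matrix.mul_apply, Fin.sum_univ_two] at this
    simp at this
    exact_mod_cast this
  have e10 : (B 1 0 : ℂ) * A 0 0 + B 1 1 * A 1 0 = 0 := by
    have := congrFun (congrFun hBA 1) 0
    rw [Matrix.mul_apply, Fin.sum_univ_two] at this
    simp at this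
    exact_mod_cast this
  have e11 : (B 1 0 : ℂ) * A 0 1 + B 1 1 * A 1 1 = d := by
    have := congrFun (congrFun hBA 1) 1
    rw [Matrix.mul_apply, Fin.sum_univ_two] at this
    simp at this
    exact_mod_cast this
  have hd' : (d : ℂ) ≠ 0 := by exact_mod_cast hd
  refine ⟨d / c, div_ne_zero hd' hc, ?_, ?_⟩
  · have : c * ((B 0 0 : ℂ) * (w + 1) + (B 0 1 : ℂ) * (-Complex.I * (w - 1))) = d * (z + 1) := by
      linear_combination -(B 0 0 : ℂ) * h3 - (B 0 1 : ℂ) * h4 + (z + 1) * e00 +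
        (-Complex.I * (z - 1)) * e01
    field_simp
    linear_combination this
  · have : c * ((B 1 0 : ℂ) * (w + 1) + (B 1 1 : ℂ) * (-Complex.I * (w - 1))) =
        d * (-Complex.I * (z - 1)) := by
      linear_combination -(B 1 0 : ℂ) * h3 - (B 1 1 : ℂ) * h4 + (z + 1) * e10 +
        (-Complex.I * (z - 1)) * e11
    rw [div_mul_eq_mul_div, eq_div_iff hc]
    linear_combination this

lemma Rep.finite {A : Matrix (Fin 2) (Fin 2) ℝ} (h : ¬ Scalar A) : {z : ℂ | Rep A z z}.Finite := by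
  set P : Polynomial ℂ := Polynomial.C (-(A 0 1 : ℂ)) * (Polynomial.X - 1) ^ 2 +
    Polynomial.C (-Complex.I * ((A 0 0 : ℂ) - A 1 1)) * (Polynomial.X ^ 2 - 1) +
    Polynomial.C (-(A 1 0 : ℂ)) * (Polynomial.X + 1) ^ 2 with hP
  have hev : ∀ z : ℂ, P.eval z = -(A 0 1 : ℂ) * (z - 1) ^ 2 +
      -Complex.I * ((A 0 0 : ℂ) - A 1 1) * (z ^ 2 - 1) + -(A 1 0 : ℂ) * (z + 1) ^ 2 := by
    intro z
    rw [hP]
    simp
  have hP0 : P ≠ 0 := by
    intro h0
    apply h
    have h1 := hev 1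
    have h2 := hev (-1)
    have h3 := hev 0
    rw [h0, Polynomial.eval_zero] at h1 h2 h3
    have e1 : (A 1 0 : ℂ) = 0 := by linear_combination (1 / 4 : ℂ) * h1
    have e2 : (A 0 1 : ℂ) = 0 := by linear_combination (1 / 4 : ℂ) * h2
    rw [e1, e2] at h3
    have e3 : (A 0 0 : ℂ) = A 1 1 := by
      have h4 : Complex.I * ((A 0 0 : ℂ) - A 1 1) = 0 := by linear_combination -h3
      rcases mul_eq_zero.1 h4 with h5 | h5
      · exact absurd h5 Complex.I_ne_zero
      · exact sub_eq_zero.1 h5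
    exact ⟨by exact_mod_cast e2, by exact_mod_cast e1, by exact_mod_cast e3⟩
  refine (P.roots.toFinset.finite_toSet).subset ?_
  rintro z ⟨c, hc, h1, h2⟩
  rw [Finset.mem_coe, Multiset.mem_toFinset, Polynomial.mem_roots hP0, Polynomial.IsRoot.def, hev]
  have hI : Complex.I ^ 2 = -1 := Complex.I_sq
  linear_combination (-Complex.I * (z - 1)) * h1 - (z + 1) * h2 - (A 0 1 : ℂ) * (z - 1) ^ 2 * hI

/-! ### letters -/

lemma rep_tau {A : Matrix (Fin 2) (Fin 2) ℝ} {a m : ℝ} (ha : |a| < 1) (hm : m ≠ 0)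
    (h00 : A 0 0 = m * (1 + a)) (h11 : A 1 1 = m * (1 - a)) (h01 : A 0 1 = 0) (h10 : A 1 0 = 0)
    {z : ℂ} (hz : ‖z‖ < 1) : Rep A z (tau a z) := by
  have hd := den_ne ha hz
  have hm' : (m : ℂ) ≠ 0 := by exact_mod_cast hm
  refine ⟨m * (a * z + 1), mul_ne_zero hm' hd, ?_, ?_⟩
  · rw [tau_real_eq, h00, h01]
    push_cast
    have : (z + a) / (a * z + 1) + 1 = (1 + a) * (z + 1) / (a * z + 1) := by
      rw [eq_div_iff hd, add_mul, div_mul_cancel₀ _ hd]; ring
    rw [this]
    generalize (a * z + 1 : ℂ) = D at *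
    field_simp
    ring
  · rw [tau_real_eq, h11, h10]
    push_cast
    have : (z + a) / (a * z + 1) - 1 = (1 - a) * (z - 1) / (a * z + 1) := by
      rw [eq_div_iff hd, sub_mul, div_mul_cancel₀ _ hd]; ring
    rw [this]
    generalize (a * z + 1 : ℂ) = D at *
    field_simp
    ring

lemma rep_sig {e : Bool} {p q : ℕ} {t : ℝ} {z w : ℂ} (h : Rep (S false e p q t) (sig z) (sig w)) :
    Rep (S true e p q t) z w := by
  obtain ⟨c, hc, h1, h2⟩ := h
  simp only [S, cond_false, sig] at h1 h2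
  simp at h1 h2
  have h1' := congrArg conj h1
  have h2' := congrArg conj h2
  simp at h1' h2'
  refine ⟨conj c, by simpa using hc, ?_, ?_⟩
  · simp [S]
    have hI : Complex.I ^ 2 = -1 := Complex.I_sq
    linear_combination ((1 + Complex.I) / 2) * h1' + ((1 + Complex.I) / 2) * h2' +
      ((dd e p q t : ℂ) / 2 * z + (dd (!e) p q t : ℂ) / 2 * (z + 1 + Complex.I * z) -
        conj c * (w + 1 / 2 + 1 / 2 * Complex.I * w)) * hI
  · simp [S]
    have hI : Complex.I ^ 2 = -1 := Complex.I_sq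
    linear_combination ((1 + Complex.I) / 2) * h1' - ((1 + Complex.I) / 2) * h2' +
      ((dd e p q t : ℂ) / 2 * z - (dd (!e) p q t : ℂ) / 2 * (z + 1 + Complex.I * z) +
        1 / 2 * conj c * (1 + Complex.I * w)) * hI

/-- The relation between `α, β` and the rational parameter. -/
structure TPar (α β t : ℝ) : Prop where
  ha : (1 + t ^ 2) * α = 2 * t
  hb : (1 - 4 * t ^ 2 - t ^ 4) * β = 4 * t ^ 3
  hm : 0 < 1 - 4 * t ^ 2 - t ^ 4

namespace TPar

variable {α β t : ℝ} (ht : TPar α β t)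
include ht

lemma hAp : Ap t = (1 + t ^ 2) * (1 + α) := by
  unfold Ap; linear_combination -ht.ha
lemma hAm : Am t = (1 + t ^ 2) * (1 - α) := by
  unfold Am; linear_combination ht.ha
lemma hBp : Bp t = (1 - 4 * t ^ 2 - t ^ 4) * (1 + β) := by
  unfold Bp; linear_combination -ht.hb
lemma hBm : Bm t = (1 - 4 * t ^ 2 - t ^ 4) * (1 - β) := by
  unfold Bm; linear_combination ht.hb

lemma dd_pos (h : Par α β) (e : Bool) (p q : ℕ) : 0 < dd e p q t := by
  have h1 := ht.hAp
  have h2 := ht.hAm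
  have h3 := ht.hBp
  have h4 := ht.hBm
  have hα := abs_lt.1 h.absα
  have hβ := abs_lt.1 h.absβ
  have hm := ht.hm
  have k1 : 0 < Ap t := by rw [h1]; exact mul_pos (by positivity) (by linarith)
  have k2 : 0 < Am t := by rw [h2]; exact mul_pos (by positivity) (by linarith)
  have k3 : 0 < Bp t := by rw [h3]; exact mul_pos hm (by linarith)
  have k4 : 0 < Bm t := by rw [h4]; exact mul_pos hm (by linarith)
  cases e
  · simp only [dd, cond_false]; positivity
  · simp only [dd, cond_true]; positivity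

lemma rep_beta (h : Par α β) {z : ℂ} (hz : ‖z‖ < 1) : Rep (S false true 1 0 t) z (tau β z) := by
  apply rep_tau h.absβ ht.hm.ne' _ _ _ _ hz
  · simp [S, dd, ht.hBp]
  · simp [S, dd, ht.hBm]
  · simp [S]
  · simp [S]

lemma rep_alpha (h : Par α β) {z : ℂ} (hz : ‖z‖ < 1) :
    Rep (S false true 0 1 t) z (tau (-α) z) := by
  rw [Par.tau_negα]
  have hm : (1 + t ^ 2) ≠ 0 := by positivity
  apply rep_tau h.absnα hm _ _ _ _ hz
  · have := ht.hAm
    simp [S, dd]
    rw [this]; ring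
  · have := ht.hAp
    simp [S, dd]
    rw [this]
  · simp [S]
  · simp [S]

lemma rep_phi (h : Par α β) {z : ℂ} (hz : z ∈ Q α) :
    ∃ p q : ℕ, (p ≤ 1 ∧ q ≤ 1) ∧ (p ≠ 0 ∨ q ≠ 0) ∧ Rep (S false true p q t) z (phi α β z) := by
  have hz1 : ‖z‖ < 1 := (mem_Q_iff.1 hz).1
  rcases h.phi_cases hz with ⟨-, e⟩ | ⟨-, -, e⟩ | ⟨-, -, e⟩
  · exact ⟨1, 0, by norm_num, by norm_num, by rw [e]; exact ht.rep_beta h hz1⟩
  · exact ⟨0, 1, by norm_num, by norm_num, by rw [e]; exact ht.rep_alpha h hz1⟩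
  · refine ⟨1, 1, by norm_num, by norm_num, ?_⟩
    rw [e]
    have h1 := (ht.rep_beta h hz1).mul (ht.rep_alpha h (norm_tau_lt h.absβ hz1))
    rw [S_mul] at h1
    exact h1

lemma rep_inv (h : Par α β) {b e : Bool} {p q : ℕ} {z w : ℂ} (hr : Rep (S b e p q t) z w) :
    Rep (S b (!e) p q t) w z := by
  have h1 := S_inv b (!e) p q t
  rw [Bool.not_not] at h1
  have h2 := ht.dd_pos h e p q
  have h3 := ht.dd_pos h (!e) p q
  exact hr.inv (mul_pos h3 h2).ne' h1

end TPar

/-! ### words -/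

/-- add a letter in front of a list of syllables -/
def consS (b e : Bool) (p q : ℕ) : List Syl → List Syl
  | [] => [(b, e, p, q)]
  | s :: l => if s.1 = b then (b, e, p + s.2.2.1, q + s.2.2.2) :: l else (b, e, p, q) :: s :: l

lemma M_consS (b e : Bool) (p q : ℕ) (l : List Syl) (t : ℝ)
    (h : ∀ s, l.head? = some s → s.1 = b → s.2.1 = e) :
    M (consS b e p q l) t = S b e p q t * M l t := by
  cases l with
  | nil => simp [consS, M]
  | cons s l =>
    simp only [consS]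
    split_ifs with hs
    · have he := h s rfl hs
      simp only [M]
      rw [← Matrix.mul_assoc, hs, he, S_mul]
    · simp only [M]

lemma valid_consS (b e : Bool) (p q : ℕ) (hpq : p ≠ 0 ∨ q ≠ 0) (l : List Syl) (hl : Valid l) :
    Valid (consS b e p q l) := by
  cases l with
  | nil =>
    refine ⟨List.isChain_singleton _, ?_⟩
    intro s hs
    simp only [consS, List.mem_singleton] at hs
    subst hs
    exact hpq
  | cons s l =>
    simp only [consS]
    split_ifs with hs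
    · refine ⟨?_, ?_⟩
      · have := hl.1
        rw [List.isChain_cons] at this ⊢
        simp only [← hs]
        exact this
      · intro x hx
        rw [List.mem_cons] at hx
        rcases hx with rfl | hx
        · simp only
          omega
        · exact hl.2 x (List.mem_cons_of_mem _ hx)
    · refine ⟨?_, ?_⟩
      · rw [List.isChain_cons_cons]
        exact ⟨fun h => hs h.symm, hl.1⟩
      · intro x hx
        rw [List.mem_cons] at hx
        rcases hx with rfl | hx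
        · exact hpq
        · exact hl.2 x hx

lemma head_consS (b e : Bool) (p q : ℕ) (l : List Syl) :
    (consS b e p q l).head?.map (fun s => (s.1, s.2.1)) = some (b, e) := by
  cases l with
  | nil => rfl
  | cons s l =>
    simp only [consS]
    split_ifs <;> rfl

/-- Letters act as syllables. -/
def LetterRep {X : Type} (ι : X → ℂ) (Θ : Bool → Equiv.Perm X) (t : ℝ) : Prop :=
  ∀ (b e : Bool) (z : X), ∃ p q : ℕ, (p ≤ 1 ∧ q ≤ 1) ∧ (p ≠ 0 ∨ q ≠ 0) ∧
    Rep (S b e p q t) (ι z) (ι ((cond e (Θ b) (Θ b)⁻¹) z))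

lemma word_rep {X : Type} (ι : X → ℂ) (Θ : Bool → Equiv.Perm X) (t : ℝ) (h : LetterRep ι Θ t)
    (L : List (Bool × Bool)) (hL : FreeGroup.IsReduced L) :
    ∃ F : Set (List Syl), F.Finite ∧
      (∀ l ∈ F, Valid l ∧ l.head?.map (fun s => (s.1, s.2.1)) = L.head?) ∧
      ∀ z : X, ∃ l ∈ F, Rep (M l t) (ι z)
        (ι (((L.map fun x => cond x.2 (Θ x.1) (Θ x.1)⁻¹).prod) z)) := by
  induction L with
  | nil =>
    refine ⟨{[]}, Set.finite_singleton _, ?_, ?_⟩
    · rintro l rfl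
      exact ⟨⟨List.isChain_nil, by simp⟩, rfl⟩
    · intro z
      exact ⟨[], rfl, by simpa [M] using Rep.one (ι z)⟩
  | cons x L ih =>
    obtain ⟨b, e⟩ := x
    have hL' : FreeGroup.IsReduced L := by
      unfold FreeGroup.IsReduced at *
      exact hL.tail
    obtain ⟨F, hF, hF1, hF2⟩ := ih hL'
    set PQ : Set (ℕ × ℕ) := {x | (x.1 ≤ 1 ∧ x.2 ≤ 1) ∧ (x.1 ≠ 0 ∨ x.2 ≠ 0)} with hPQ
    have hPQf : PQ.Finite := by
      apply Set.Finite.subset ((Set.finite_Iic 1).prod (Set.finite_Iic 1))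
      rintro ⟨p, q⟩ ⟨⟨h1, h2⟩, -⟩
      exact ⟨h1, h2⟩
    refine ⟨(fun y : (ℕ × ℕ) × List Syl => consS b e y.1.1 y.1.2 y.2) '' (PQ ×ˢ F),
      (hPQf.prod hF).image _, ?_, ?_⟩
    · rintro _ ⟨⟨⟨p, q⟩, l⟩, ⟨⟨-, hpq⟩, hl⟩, rfl⟩
      exact ⟨valid_consS b e p q hpq l (hF1 l hl).1, by
        rw [head_consS]; rfl⟩
    · intro z
      obtain ⟨l, hl, hr⟩ := hF2 z
      set w := ((L.map fun x => cond x.2 (Θ x.1) (Θ x.1)⁻¹).prod) z with hw
      obtain ⟨p, q, h1, h2, h3⟩ := h b e w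
      refine ⟨consS b e p q l, ⟨⟨(p, q), l⟩, ⟨⟨h1, h2⟩, hl⟩, rfl⟩, ?_⟩
      have hhead : ∀ s, l.head? = some s → s.1 = b → s.2.1 = e := by
        intro s hs hsb
        have h4 := (hF1 l hl).2
        rw [hs] at h4
        cases L with
        | nil => simp at h4
        | cons y L' =>
          simp only [Option.map_some, List.head?_cons, Option.some.injEq] at h4
          have h5 := (FreeGroup.isReduced_cons_cons.1 hL).1
          rw [← h4] at h5
          simp only at h5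
          exact (h5 hsb.symm).symm
      rw [M_consS b e p q l t hhead]
      have := hr.mul h3
      simpa [List.map_cons, List.prod_cons, Equiv.Perm.mul_apply] using this

/-- If no nonempty admissible list gives a scalar matrix at `t`, then all nontrivial words have
finitely many fixed points. -/
lemma word_fixed {X : Type} (ι : X → ℂ) (hι : Function.Injective ι) (Θ : Bool → Equiv.Perm X)
    (t : ℝ) (h : LetterRep ι Θ t) (hgood : ∀ l : List Syl, Valid l → l ≠ [] → ¬ Scalar (M l t))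
    (w : FreeGroup Bool) (hw : w ≠ 1) : {z : X | (FreeGroup.lift Θ w) z = z}.Finite := by
  have hne : w.toWord ≠ [] := by
    intro h0
    apply hw
    rwa [FreeGroup.toWord_eq_nil_iff] at h0
  obtain ⟨F, hF, hF1, hF2⟩ := word_rep ι Θ t h w.toWord FreeGroup.isReduced_toWord
  have hfin : (⋃ l ∈ F, {z : ℂ | Rep (M l t) z z}).Finite := by
    apply hF.biUnion
    intro l hl
    apply Rep.finite
    apply hgood l (hF1 l hl).1
    rintro rfl
    have := (hF1 [] hl).2
    cases h5 : w.toWord with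
    | nil => exact hne h5
    | cons a L => rw [h5] at this; simp at this
  apply (hfin.preimage hι.injOn).subset
  intro z hz
  obtain ⟨l, hl, hr⟩ := hF2 z
  simp only [Set.mem_preimage, Set.mem_iUnion]
  refine ⟨l, hl, ?_⟩
  have e : ((w.toWord.map fun x => cond x.2 (Θ x.1) (Θ x.1)⁻¹).prod) z = z := by
    rw [← FreeGroup.lift_mk, FreeGroup.mk_toWord]
    exact hz
  rw [e] at hr
  exact hr

end Pool.Agent.Work.MP_af08fa_gt
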