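import Mathlib
import Pool.Agent.Work.MP_af08fa_gt.Words

/-!
Assembly of the final statement.
-/

set_option autoImplicit false

namespace Pool.Agent.Work.MP_af08fa_gt

open scoped ComplexConjugate

lemma real_mem_Q {α β : ℝ} (h : Par α β) (hbw : bwid α = Real.artanh α + Real.artanh β)
    {x : ℝ} (hx0 : 0 ≤ x) (hx1 : x ≤ β) : (x : ℂ) ∈ Q α := by
  have hβ := abs_lt.1 h.absβ
  have hx : |x| < 1 := by rw [abs_of_nonneg hx0]; linarith
  have hn : ‖(x : ℂ)‖ < 1 := by rw [Complex.norm_real, Real.norm_eq_abs]; exact hx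
  have hpos := h.art_pos
  have hlt := h.art_lt
  have e1 : X1 (x : ℂ) = 2 * x / (1 - x ^ 2) := by
    unfold X1 nsq; simp
  have e2 : X2 (x : ℂ) = 0 := by
    unfold X2; simp
  have e3 : Real.arsinh (X1 (x : ℂ)) = 2 * Real.artanh x := by
    rw [e1, ← sinh_two_artanh hx, Real.arsinh_sinh]
  have h4 : 0 ≤ Real.artanh x := Real.artanh_nonneg hx0
  have h5 : Real.artanh x ≤ Real.artanh β := Real.artanh_le_artanh (by linarith) hβ.2 hx1
  rw [mem_Q_iff, e2, e3, Real.arsinh_zero, hbw]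
  refine ⟨hn, ?_, ?_, ?_, ?_⟩ <;> linarith

lemma Q_infinite {α β : ℝ} (h : Par α β) (hbw : bwid α = Real.artanh α + Real.artanh β) :
    (Q α).Infinite := by
  have h1 : (Set.Icc (0 : ℝ) β).Infinite := Set.Icc_infinite h.b0
  have h2 : ((fun x : ℝ => (x : ℂ)) '' Set.Icc (0 : ℝ) β).Infinite :=
    h1.image Complex.ofReal_injective.injOn
  apply h2.mono
  rintro _ ⟨x, ⟨hx0, hx1⟩, rfl⟩
  exact real_mem_Q h hbw hx0 hx1

lemma good_of {α β t : ℝ} (h : Par α β) (hbw : bwid α = Real.artanh α + Real.artanh β)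
    (ht : TPar α β t) (hgood : ∀ l : List Syl, Valid l → l ≠ [] → ¬ Scalar (M l t)) :
    Good α β := by
  refine ⟨h.bijOn, h.bijOn_psi, ?_⟩
  set Θ : Bool → Equiv.Perm (Q α) :=
    fun i : Bool => if i then h.bijOn_psi.equiv (psi α β) else h.bijOn.equiv (phi α β) with hΘ
  have hφv : ∀ z : Q α, ((Θ false z : Q α) : ℂ) = phi α β z := fun z => rfl
  have hψv : ∀ z : Q α, ((Θ true z : Q α) : ℂ) = psi α β z := fun z => rfl
  have hpos : ∀ (b : Bool) (z : Q α), ∃ p q : ℕ, (p ≤ 1 ∧ q ≤ 1) ∧ (p ≠ 0 ∨ q ≠ 0) ∧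
      Rep (S b true p q t) (z : ℂ) ((Θ b z : Q α) : ℂ) := by
    intro b z
    cases b
    · rw [hφv]
      exact ht.rep_phi h z.2
    · rw [hψv]
      obtain ⟨p, q, h1, h2, h3⟩ := ht.rep_phi h (sig_mem_Q z.2)
      refine ⟨p, q, h1, h2, rep_sig ?_⟩
      unfold psi
      rw [sig_sig]
      exact h3
  have hrep : LetterRep (fun z : Q α => (z : ℂ)) Θ t := by
    intro b e z
    cases e
    · obtain ⟨p, q, h1, h2, h3⟩ := hpos b ((Θ b)⁻¹ z)
      refine ⟨p, q, h1, h2, ?_⟩
      have e1 : Θ b ((Θ b)⁻¹ z) = z := by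
        rw [← Equiv.Perm.mul_apply, mul_inv_cancel, Equiv.Perm.one_apply]
      rw [e1] at h3
      have h4 := ht.rep_inv h h3
      rw [Bool.not_true] at h4
      simp only [cond_false]
      exact h4
    · obtain ⟨p, q, h1, h2, h3⟩ := hpos b z
      refine ⟨p, q, h1, h2, ?_⟩
      simp only [cond_true]
      exact h3
  have hfix := word_fixed (fun z : Q α => (z : ℂ)) Subtype.val_injective Θ t hrep hgood
  have hinf : Infinite (Q α) := (Q_infinite h hbw).to_subtype
  constructor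
  · rw [injective_iff_map_eq_one]
    intro w hw
    by_contra hne
    have h1 := hfix w hne
    rw [hw] at h1
    have h2 : {z : Q α | (1 : Equiv.Perm (Q α)) z = z} = Set.univ := by
      ext z; simp
    rw [h2] at h1
    exact Set.infinite_univ h1
  · intro g hg hg1
    have h1 : g ∈ Subgroup.closure (Set.range Θ) := by
      refine Subgroup.closure_mono ?_ hg
      intro x hx
      rw [Set.mem_insert_iff, Set.mem_singleton_iff] at hx
      rcases hx with rfl | rfl
      · exact ⟨false, rfl⟩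
      · exact ⟨true, rfl⟩
    rw [← FreeGroup.range_lift_eq_closure] at h1
    obtain ⟨w, rfl⟩ := h1
    apply hfix w
    rintro rfl
    exact hg1 (map_one _)

/-- All transcendental parameters are good. -/
theorem good_of_transcendental {α : ℝ} (h0 : 0 < α) (h1 : α < √(2 * √3 - 3))
    (hα : Transcendental ℚ α) : Good α (betaLow α) := by
  obtain ⟨t, ht, ht1, ht2, ht3, ht4⟩ := rat_param h0 h1
  refine good_of (par h0 h1) (bwid_eq h0 h1) ⟨ht1, ht2, ht3⟩ ?_
  intro l hl hne hS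
  apply hα
  have hta : IsAlgebraic ℚ t := bad_algebraic l hl hne t hS
  have e : α = 2 * t / (1 + t ^ 2) := by
    rw [eq_div_iff ht4.ne']; linarith
  rw [e, div_eq_mul_inv]
  have h2 : IsAlgebraic ℚ (2 : ℝ) := by
    have := isAlgebraic_algebraMap (R := ℚ) (A := ℝ) (2 : ℚ)
    simpa using this
  have h1' : IsAlgebraic ℚ (1 : ℝ) := by
    have := isAlgebraic_algebraMap (R := ℚ) (A := ℝ) (1 : ℚ)
    simpa using this
  exact (h2.mul hta).mul (h1'.add (hta.pow 2)).inv

theorem exists_good : ∃ α : ℝ, 0 < α ∧ α < √(2 * √3 - 3) ∧ Good α (betaLow α) := by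
  by_contra hcon
  push Not at hcon
  have h1 : Set.Ioo (0 : ℝ) √(2 * √3 - 3) ⊆ {α : ℝ | IsAlgebraic ℚ α} := by
    rintro α ⟨h0, h2⟩
    by_contra h3
    exact hcon α h0 h2 (good_of_transcendental h0 h2 h3)
  have h2 := (Algebraic.countable ℚ ℝ).mono h1
  rw [Cardinal.Real.Ioo_countable_iff] at h2
  have h3 := sqrt3_facts
  have h4 : 0 < √(2 * √3 - 3) := Real.sqrt_pos.2 (by linarith [h3.2.1])
  linarith

end Pool.Agent.Work.MP_af08fa_gt
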